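import Pool.Agent.H23.Count
import Pool.Agent.H23.Symb

/-!
# Squares in the p-adic numbers (module PSQ)
-/

namespace Pool.Agent.ShF

open Polynomial

theorem psq_lift {p : ℕ} [Fact p.Prime] {n a : ℤ}
    (h : ‖((a ^ 2 - n : ℤ) : ℤ_[p])‖ < ‖((2 * a : ℤ) : ℤ_[p])‖ ^ 2) :
    ∃ t : ℚ_[p], (n : ℚ_[p]) = t ^ 2 := by
  set F : Polynomial ℤ_[p] := X ^ 2 - C (n : ℤ_[p]) with hF
  have e1 : F.aeval (a : ℤ_[p]) = ((a ^ 2 - n : ℤ) : ℤ_[p]) := by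
    simp [hF]
  have e2 : F.derivative.aeval (a : ℤ_[p]) = ((2 * a : ℤ) : ℤ_[p]) := by
    simp [hF]
    left
    norm_num
  obtain ⟨z, hz, -⟩ := hensels_lemma (F := F) (a := (a : ℤ_[p])) (by rw [e1, e2]; exact h)
  refine ⟨(z : ℚ_[p]), ?_⟩
  have h3 : z ^ 2 - (n : ℤ_[p]) = 0 := by simpa [hF] using hz
  have h4 : (n : ℤ_[p]) = z ^ 2 := by linear_combination -h3
  have h5 := congrArg (fun w : ℤ_[p] => (w : ℚ_[p])) h4
  simpa using h5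

theorem padic_sq {p : ℕ} [Fact p.Prime] (hp2 : p ≠ 2) {n : ℤ} (hn : ¬ (p : ℤ) ∣ n)
    (h : legendreSym p n = 1) : ∃ t : ℚ_[p], (n : ℚ_[p]) = t ^ 2 := by
  have hp : p.Prime := Fact.out
  have hn0 : (n : ZMod p) ≠ 0 := by
    rwa [Ne, ZMod.intCast_zmod_eq_zero_iff_dvd]
  obtain ⟨a, ha⟩ := (legendreSym.eq_one_iff p hn0).1 h
  have hcast : ((a.val : ℤ) : ZMod p) = a := by
    rw [Int.cast_natCast, ZMod.natCast_val, ZMod.cast_id', id]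
  have hdvd : (p : ℤ) ∣ (a.val : ℤ) ^ 2 - n := by
    rw [← ZMod.intCast_zmod_eq_zero_iff_dvd]
    push_cast at hcast ⊢
    rw [hcast, ha]
    ring
  have hnd : ¬ (p : ℤ) ∣ 2 * (a.val : ℤ) := by
    intro h1
    have hpi : Prime (p : ℤ) := Nat.prime_iff_prime_int.1 hp
    rcases hpi.dvd_or_dvd h1 with h2 | h2
    · have h3 : p ∣ 2 := by exact_mod_cast h2
      exact hp2 ((Nat.prime_dvd_prime_iff_eq hp Nat.prime_two).1 h3)
    · apply hn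
      have h3 : (p : ℤ) ∣ (a.val : ℤ) ^ 2 := dvd_pow h2 two_ne_zero
      have h4 := dvd_sub h3 hdvd
      rwa [sub_sub_cancel] at h4
  refine psq_lift (a := (a.val : ℤ)) ?_
  have h1 : ‖((((a.val : ℤ) ^ 2 - n : ℤ)) : ℤ_[p])‖ < 1 := by
    rw [PadicInt.norm_int_lt_one_iff_dvd]
    exact hdvd
  have h2 : ‖(((2 * (a.val : ℤ) : ℤ)) : ℤ_[p])‖ = 1 := by
    refine le_antisymm (PadicInt.norm_le_one _) ?_
    by_contra h3
    push Not at h3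
    rw [PadicInt.norm_int_lt_one_iff_dvd] at h3
    exact hnd h3
  rw [h2]
  simpa using h1

theorem padic_two_sq {n : ℤ} (hn : n % 8 = 1) : ∃ t : ℚ_[2], (n : ℚ_[2]) = t ^ 2 := by
  refine psq_lift (a := 1) ?_
  have h1 : ‖(((1 : ℤ) ^ 2 - n : ℤ) : ℤ_[2])‖ ≤ ((2 : ℕ) : ℝ) ^ (-(3 : ℕ) : ℤ) := by
    rw [PadicInt.norm_int_le_pow_iff_dvd]
    norm_num
    omega
  have h2 : ‖((2 * (1 : ℤ) : ℤ) : ℤ_[2])‖ = 1 / 2 := by
    have h3 := PadicInt.norm_p (p := 2)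
    push_cast at h3 ⊢
    rw [h3]
    norm_num
  rw [h2]
  refine lt_of_le_of_lt h1 ?_
  norm_num

end Pool.Agent.ShF
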