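import Pool.Agent.H23.Count
import Pool.Agent.H23.Symb

/-!
# Points on conics over finite fields (module CONIC)
-/

namespace Pool.Agent.ShF

open Finset

theorem conic_card_le {p : ℕ} [Fact p.Prime] (hp2 : p ≠ 2) {a b : ZMod p}
    (hd : a ^ 2 - 4 * b ≠ 0) :
    (univ.filter (fun z : ZMod p × ZMod p => z.2 ^ 2 = z.1 ^ 2 + a * z.1 + b)).card ≤ p - 1 := by
  have h2 : (2 : ZMod p) ≠ 0 := by
    intro h
    have h3 : ((2 : ℕ) : ZMod p) = 0 := by exact_mod_cast h
    rw [ZMod.natCast_eq_zero_iff] at h3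
    exact hp2 ((Nat.prime_dvd_prime_iff_eq (Fact.out : p.Prime) Nat.prime_two).1 h3)
  have hcard : (univ.erase (0 : ZMod p)).card = p - 1 := by
    rw [card_erase_of_mem (mem_univ _), card_univ, ZMod.card]
  rw [← hcard]
  refine card_le_card_of_injOn (fun z => 2 * z.2 - (2 * z.1 + a)) ?_ ?_
  · rintro ⟨x, y⟩ hz
    simp only [coe_filter, mem_univ, true_and, Set.mem_ofPred_eq] at hz
    simp only [coe_erase, coe_univ, Set.mem_sdiff, Set.mem_univ, Set.mem_singleton_iff, true_and]
    intro h0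
    apply hd
    have h3 : (2 * y - (2 * x + a)) * (2 * y + (2 * x + a)) = -(a ^ 2 - 4 * b) := by
      linear_combination 4 * hz
    rw [h0, zero_mul] at h3
    linear_combination h3
  · rintro ⟨x, y⟩ hz ⟨x', y'⟩ hz' hw
    simp only [coe_filter, mem_univ, true_and, Set.mem_ofPred_eq] at hz hz'
    simp only at hw
    have h3 : (2 * y - (2 * x + a)) * (2 * y + (2 * x + a)) = -(a ^ 2 - 4 * b) := by
      linear_combination 4 * hz
    have h3' : (2 * y' - (2 * x' + a)) * (2 * y' + (2 * x' + a)) = -(a ^ 2 - 4 * b) := by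
      linear_combination 4 * hz'
    have hw0 : 2 * y - (2 * x + a) ≠ 0 := by
      intro h0
      rw [h0, zero_mul] at h3
      apply hd
      linear_combination h3
    rw [← hw, ← h3] at h3'
    have h4 := mul_left_cancel₀ hw0 h3'
    have h5 : 4 * (y - y') = 0 := by linear_combination hw - h4
    have h6 : 4 * (x - x') = 0 := by linear_combination -hw - h4
    have h40 : (4 : ZMod p) ≠ 0 := by
      have : (4 : ZMod p) = 2 * 2 := by norm_num
      rw [this]
      exact mul_ne_zero h2 h2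
    have h7 := (mul_eq_zero.1 h5).resolve_left h40
    have h8 := (mul_eq_zero.1 h6).resolve_left h40
    rw [sub_eq_zero] at h7 h8
    rw [h7, h8]

theorem conic_card_eq {p : ℕ} [Fact p.Prime] (hp2 : p ≠ 2) (q : ZMod p → ZMod p) :
    ((univ.filter (fun z : ZMod p × ZMod p => z.2 ^ 2 = q z.1)).card : ℤ) =
      ∑ x, (quadraticChar (ZMod p) (q x) + 1) := by
  have hc : ringChar (ZMod p) ≠ 2 := by rwa [ZMod.ringChar_zmod_n]
  have h1 : (univ.filter (fun z : ZMod p × ZMod p => z.2 ^ 2 = q z.1)).card =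
      ∑ x, (univ.filter (fun y : ZMod p => y ^ 2 = q x)).card := by
    rw [← card_sigma]
    refine card_bij' (fun z _ => ⟨z.1, z.2⟩) (fun z _ => (z.1, z.2)) ?_ ?_ ?_ ?_
    · intro z hz
      simpa using hz
    · intro z hz
      simpa using hz
    · intro z _
      rfl
    · intro z _
      rfl
  rw [h1]
  push_cast
  refine sum_congr rfl fun x _ => ?_
  rw [← quadraticChar_card_sqrts hc]
  congr 2
  ext y
  simp

theorem exists_nonres {p : ℕ} [Fact p.Prime] (hp2 : p ≠ 2) {a b : ZMod p} (hb : b ≠ 0)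
    (hsq : IsSquare b) (hd : a ^ 2 - 4 * b ≠ 0) :
    ∃ x : ZMod p, ¬ IsSquare x ∧ IsSquare (x * (x ^ 2 + a * x + b)) := by
  by_contra hcon
  push Not at hcon
  have hc : ringChar (ZMod p) ≠ 2 := by rwa [ZMod.ringChar_zmod_n]
  have hp1 := (Fact.out : p.Prime).one_lt
  have h1 := conic_card_le hp2 hd
  have h2 := conic_card_eq hp2 (fun x : ZMod p => x ^ 2 + a * x + b)
  have h3 : ∑ x : ZMod p, ((1 - quadraticChar (ZMod p) x) + (if x = 0 then 1 else 0)) ≤
      ∑ x : ZMod p, (quadraticChar (ZMod p) (x ^ 2 + a * x + b) + 1) := by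
    refine sum_le_sum fun x _ => ?_
    by_cases hx : x = 0
    · subst hx
      have e : (0 : ZMod p) ^ 2 + a * 0 + b = b := by ring
      rw [e, if_pos rfl, MulChar.map_zero, (quadraticChar_one_iff_isSquare hb).2 hsq]
      norm_num
    · rw [if_neg hx]
      by_cases hsx : IsSquare x
      · rw [(quadraticChar_one_iff_isSquare hx).2 hsx]
        rcases quadraticChar_isQuadratic (ZMod p) (x ^ 2 + a * x + b) with h | h | h <;>
          rw [h] <;> norm_num
      · have h4 := hcon x hsx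
        have h5 : quadraticChar (ZMod p) (x * (x ^ 2 + a * x + b)) = -1 :=
          quadraticChar_neg_one_iff_not_isSquare.2 h4
        have h6 : quadraticChar (ZMod p) x = -1 := quadraticChar_neg_one_iff_not_isSquare.2 hsx
        rw [map_mul, h6] at h5
        have h7 : quadraticChar (ZMod p) (x ^ 2 + a * x + b) = 1 := by linarith
        rw [h6, h7]
        norm_num
  have h4 : ∑ x : ZMod p, ((1 - quadraticChar (ZMod p) x) + (if x = 0 then 1 else 0)) =
      (p : ℤ) + 1 := by
    rw [sum_add_distrib, sum_sub_distrib, quadraticChar_sum_zero hc, sum_ite_eq' univ (0 : ZMod p),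
      if_pos (mem_univ _)]
    simp
  rw [h4, ← h2] at h3
  have h5 : (p : ℤ) + 1 ≤ ((p - 1 : ℕ) : ℤ) := h3.trans (by exact_mod_cast h1)
  omega

theorem exists_sq_add {p : ℕ} [Fact p.Prime] (hp5 : 5 ≤ p) {a d : ZMod p} (ha : a ≠ 0)
    (hd : d ≠ 0) : ∃ e s : ZMod p, s ≠ 0 ∧ d + a * e ^ 2 = s ^ 2 := by
  have hp : p.Prime := Fact.out
  have hodd : p % 2 = 1 := (hp.eq_two_or_odd).resolve_left (by omega)
  obtain ⟨X, e, h⟩ := FiniteField.exists_root_sum_quadratic (R := ZMod p)
    (f := Polynomial.X ^ 2 - Polynomial.C d) (g := Polynomial.C (-a) * Polynomial.X ^ 2)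
    (Polynomial.degree_X_pow_sub_C (by decide) _)
    (by rw [Polynomial.degree_C_mul_X_pow 2 (neg_ne_zero.2 ha)]; rfl)
    (by rw [ZMod.card]; exact hodd)
  simp only [Polynomial.eval_sub, Polynomial.eval_pow, Polynomial.eval_X, Polynomial.eval_C,
    Polynomial.eval_mul] at h
  by_cases hX : X = 0
  · subst hX
    have he : a * e ^ 2 = -d := by linear_combination -h
    have he0 : e ≠ 0 := by
      rintro rfl
      apply hd
      linear_combination he
    have hne : ∀ n : ℕ, 0 < n → n < p → (n : ZMod p) ≠ 0 := by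
      intro n h0 hn h1
      rw [ZMod.natCast_eq_zero_iff] at h1
      exact absurd (Nat.le_of_dvd h0 h1) (by omega)
    have h2 : (2 : ZMod p) ≠ 0 := by exact_mod_cast hne 2 (by norm_num) (by omega)
    have h3 : (3 : ZMod p) ≠ 0 := by exact_mod_cast hne 3 (by norm_num) (by omega)
    obtain ⟨t, ht0, ht⟩ : ∃ t : ZMod p, t ≠ 0 ∧ t ^ 2 - a ≠ 0 := by
      by_cases h1 : (1 : ZMod p) - a = 0
      · refine ⟨2, h2, fun h4 => h3 ?_⟩
        linear_combination h4 - h1
      · exact ⟨1, one_ne_zero, by rwa [one_pow]⟩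
    refine ⟨e * (t ^ 2 + a) / (t ^ 2 - a), 2 * a * e * t / (t ^ 2 - a), ?_, ?_⟩
    · exact div_ne_zero (mul_ne_zero (mul_ne_zero (mul_ne_zero h2 ha) he0) ht0) ht
    · have hd' : d = -(a * e ^ 2) := by rw [he, neg_neg]
      rw [hd']
      field_simp
      ring
  · refine ⟨e, X, hX, ?_⟩
    linear_combination -h

end Pool.Agent.ShF
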