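import Pool.Agent.H23.Count
import Pool.Agent.H23.Symb
import Pool.Agent.ShF.CONIC
import Pool.Agent.ShF.PSQ

/-!
# Local solubility of the descent quartics
-/

namespace Pool.Agent.ShF

open Pool.Agent.H23 WeierstrassCurve WeierstrassCurve.Affine

theorem loc_point {K : Type*} [Field K] {A B d : ℤ} (hdb : d ∣ A * B) (hd : (d : K) ≠ 0)
    {M N : K} (h : (d : K) * N ^ 2 = (d * M ^ 2 + A) * (d * M ^ 2 + B)) :
    QSol K (A + B) (A * B) d := by
  refine ⟨N, M, 1, Or.inr one_ne_zero, ?_⟩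
  obtain ⟨c, hc⟩ := hdb
  have hd0 : d ≠ 0 := by rintro rfl; simp at hd
  have h1 : A * B / d = c := by rw [hc, Int.mul_ediv_cancel_left _ hd0]
  rw [h1]
  have h2 : (A : K) * B = d * c := by exact_mod_cast congrArg (fun z : ℤ => (z : K)) hc
  apply mul_left_cancel₀ hd
  rw [h]
  push_cast
  linear_combination h2

theorem loc_one {K : Type*} [Field K] {a b d : ℤ} {t : K} (h : (d : K) = t ^ 2) :
    QSol K a b d :=
  ⟨t, 1, 0, Or.inl one_ne_zero, by rw [h]; ring⟩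

theorem loc_root {K : Type*} [Field K] {A B d : ℤ} (hdb : d ∣ A * B) (hd : (d : K) ≠ 0)
    {s : K} (h : (-A * d : K) = s ^ 2) : QSol K (A + B) (A * B) d := by
  apply loc_point hdb hd (M := s / d) (N := 0)
  have h1 : (d : K) * (s / d) ^ 2 + A = 0 := by
    field_simp
    rw [← h]
    ring
  rw [h1]
  ring

theorem loc_int_ne {p : ℕ} [Fact p.Prime] {d : ℤ} (hd : ¬ (p : ℤ) ∣ d) : (d : ℚ_[p]) ≠ 0 := by
  have : d ≠ 0 := by rintro rfl; exact hd (dvd_zero _)
  exact_mod_cast this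

theorem loc_prime {p : ℕ} [hp : Fact p.Prime] : Prime (p : ℤ) :=
  Nat.prime_iff_prime_int.mp hp.1

theorem loc_good {p : ℕ} [Fact p.Prime] (hp2 : p ≠ 2) {A B d : ℤ} (hdb : d ∣ A * B)
    (hA : ¬ (p : ℤ) ∣ A) (hB : ¬ (p : ℤ) ∣ B) (hAB : ¬ (p : ℤ) ∣ A - B) :
    QSol ℚ_[p] (A + B) (A * B) d := by
  have hpz : Prime (p : ℤ) := loc_prime
  have hb : ¬ (p : ℤ) ∣ A * B := fun h => (hpz.dvd_or_dvd h).elim hA hB
  have hd : ¬ (p : ℤ) ∣ d := fun h => hb (h.trans hdb)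
  have hd0 : (d : ℚ_[p]) ≠ 0 := loc_int_ne hd
  have hz : ∀ n : ℤ, ¬ (p : ℤ) ∣ n → (n : ZMod p) ≠ 0 := by
    intro n hn
    rwa [Ne, ZMod.intCast_zmod_eq_zero_iff_dvd]
  rcases legendreSym.eq_one_or_neg_one p (hz d hd) with h1 | h1
  · obtain ⟨t, ht⟩ := padic_sq hp2 hd h1
    exact loc_one ht
  rcases legendreSym.eq_one_or_neg_one p (hz _ hb) with h2 | h2
  · have hsq : IsSquare ((A * B : ℤ) : ZMod p) := (legendreSym.eq_one_iff p (hz _ hb)).1 h2
    push_cast at hsq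
    have hA0 := hz A hA
    have hB0 := hz B hB
    have hAB0 := hz (A - B) hAB
    push_cast at hAB0
    obtain ⟨x0, hx0, hx1⟩ := exists_nonres hp2 (a := (A : ZMod p) + B) (b := (A : ZMod p) * B)
      (mul_ne_zero hA0 hB0) hsq (by
        have : ((A : ZMod p) + B) ^ 2 - 4 * (A * B) = ((A : ZMod p) - B) ^ 2 := by ring
        rw [this]
        exact pow_ne_zero 2 hAB0)
    have hfac : x0 * (x0 ^ 2 + ((A : ZMod p) + B) * x0 + (A : ZMod p) * B) =
        x0 * (x0 + A) * (x0 + B) := by ring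
    rw [hfac] at hx1
    obtain ⟨x, hx⟩ := ZMod.intCast_surjective x0
    have hx00 : x0 ≠ 0 := by rintro rfl; exact hx0 (IsSquare.zero)
    have hroot : ∀ C D : ℤ, ¬ (p : ℤ) ∣ C → x0 + C = 0 → A * B = C * D → A + B = C + D →
        QSol ℚ_[p] (A + B) (A * B) d := by
      intro C D hC hx2 h3 h4
      rw [h3, h4]
      have h5 : legendreSym p (-C) = -1 := by
        rw [legendreSym.eq_neg_one_iff]
        push_cast
        rwa [← eq_neg_of_add_eq_zero_left hx2]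
      have h6 : legendreSym p (-C * d) = 1 := by
        rw [legendreSym.mul, h5, h1]; norm_num
      have h7 : ¬ (p : ℤ) ∣ -C * d := by
        intro h
        rcases hpz.dvd_or_dvd h with h | h
        · exact hC ((dvd_neg).1 h)
        · exact hd h
      obtain ⟨s, hs⟩ := padic_sq hp2 h7 h6
      refine loc_root (by rw [← h3]; exact hdb) hd0 (s := s) ?_
      rw [← hs]
      push_cast
      ring
    by_cases hxA : x0 + A = 0
    · exact hroot A B hA hxA rfl rfl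
    by_cases hxB : x0 + B = 0
    · exact hroot B A hB hxB (mul_comm _ _) (add_comm _ _)
    -- the generic case
    have hn0 : ((x * (x + A) * (x + B) : ℤ) : ZMod p) ≠ 0 := by
      push_cast
      rw [hx]
      exact mul_ne_zero (mul_ne_zero hx00 hxA) hxB
    have hn1 : legendreSym p (x * (x + A) * (x + B)) = 1 := by
      rw [legendreSym.eq_one_iff p hn0]
      push_cast
      rw [hx]
      exact hx1
    have hn2 : ¬ (p : ℤ) ∣ x * (x + A) * (x + B) := by
      rwa [← ZMod.intCast_zmod_eq_zero_iff_dvd]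
    obtain ⟨t, ht⟩ := padic_sq hp2 hn2 hn1
    have hxl : legendreSym p x = -1 := by
      rw [legendreSym.eq_neg_one_iff, hx]
      exact hx0
    have hxd : legendreSym p (x * d) = 1 := by
      rw [legendreSym.mul, hxl, h1]; norm_num
    have hxp : ¬ (p : ℤ) ∣ x := by
      rw [← ZMod.intCast_zmod_eq_zero_iff_dvd, hx]
      exact hx00
    have hxd2 : ¬ (p : ℤ) ∣ x * d := fun h => (hpz.dvd_or_dvd h).elim hxp hd
    obtain ⟨s, hs⟩ := padic_sq hp2 hxd2 hxd
    have hx3 : (x : ℚ_[p]) ≠ 0 := loc_int_ne hxp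
    push_cast at ht hs
    have hs0 : s ≠ 0 := by
      rintro rfl
      rw [zero_pow two_ne_zero] at hs
      exact mul_ne_zero hx3 hd0 hs
    apply loc_point hdb hd0 (M := s / d) (N := t / s)
    have h8 : (d : ℚ_[p]) * (s / d) ^ 2 = x := by
      field_simp
      rw [← hs]
      ring
    rw [h8]
    field_simp
    rw [← ht, ← hs]
    ring
  · obtain ⟨c, hc⟩ := hdb
    have hd00 : d ≠ 0 := by rintro rfl; exact hd (dvd_zero _)
    have hc1 : A * B / d = c := by rw [hc, Int.mul_ediv_cancel_left _ hd00]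
    have hcp : ¬ (p : ℤ) ∣ c := by
      intro h
      apply hb
      rw [hc]
      exact h.mul_left d
    have hcl : legendreSym p c = 1 := by
      rw [hc, legendreSym.mul, h1] at h2
      linarith
    obtain ⟨t, ht⟩ := padic_sq hp2 hcp hcl
    refine ⟨t, 0, 1, Or.inr one_ne_zero, ?_⟩
    rw [hc1, ht]
    ring

theorem loc_three : ∀ y : ZMod 3, y ≠ 0 → ∃ e s : ZMod 3, s ≠ 0 ∧ y + 2 * e ^ 2 = s ^ 2 := by
  decide

theorem loc_mult_aux {p : ℕ} [Fact p.Prime] (hp2 : p ≠ 2) {A B d : ℤ} (hdb : d ∣ A * B)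
    (hA : (p : ℤ) ∣ A) (hB : ¬ (p : ℤ) ∣ B) (h3 : p = 3 → B % 3 = 2) (hd : ¬ (p : ℤ) ∣ d) :
    QSol ℚ_[p] (A + B) (A * B) d := by
  have hpz : Prime (p : ℤ) := loc_prime
  have hz : ∀ n : ℤ, ¬ (p : ℤ) ∣ n → (n : ZMod p) ≠ 0 := by
    intro n hn
    rwa [Ne, ZMod.intCast_zmod_eq_zero_iff_dvd]
  have hkey : ∃ e s : ZMod p, s ≠ 0 ∧ (d : ZMod p) + B * e ^ 2 = s ^ 2 := by
    have hpp : p.Prime := Fact.out
    by_cases h5 : 5 ≤ p
    · exact exists_sq_add h5 (hz B hB) (hz d hd)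
    · have hp3 : p = 3 := by
        have := hpp.two_le
        interval_cases p
        · exact absurd rfl hp2
        · rfl
        · exact absurd hpp (by norm_num)
      subst hp3
      have hB3 := h3 rfl
      have hBz : (B : ZMod 3) = 2 := by
        have : (B : ZMod 3) = ((2 : ℤ) : ZMod 3) := by
          rw [ZMod.intCast_eq_intCast_iff]
          exact hB3
        simpa using this
      have hdz := hz d hd
      rw [hBz]
      exact loc_three _ hdz
  obtain ⟨e0, s0, hs0, he0⟩ := hkey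
  obtain ⟨e, he⟩ := ZMod.intCast_surjective e0
  obtain ⟨c, hc⟩ := hdb
  have hd00 : d ≠ 0 := by rintro rfl; exact hd (dvd_zero _)
  have hc1 : A * B / d = c := by rw [hc, Int.mul_ediv_cancel_left _ hd00]
  have hcp : (p : ℤ) ∣ c := by
    have : (p : ℤ) ∣ d * c := by rw [← hc]; exact hA.mul_right B
    exact (hpz.dvd_or_dvd this).resolve_left hd
  have hAz : (A : ZMod p) = 0 := by rwa [ZMod.intCast_zmod_eq_zero_iff_dvd]
  have hcz : (c : ZMod p) = 0 := by rwa [ZMod.intCast_zmod_eq_zero_iff_dvd]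
  have hval : ((d + (A + B) * e ^ 2 + c * e ^ 4 : ℤ) : ZMod p) = s0 ^ 2 := by
    push_cast
    rw [hAz, hcz, he, ← he0]
    ring
  have hn0 : ((d + (A + B) * e ^ 2 + c * e ^ 4 : ℤ) : ZMod p) ≠ 0 := by
    rw [hval]; exact pow_ne_zero 2 hs0
  have hn1 : legendreSym p (d + (A + B) * e ^ 2 + c * e ^ 4) = 1 := by
    rw [legendreSym.eq_one_iff p hn0, hval]
    exact ⟨s0, by ring⟩
  have hn2 : ¬ (p : ℤ) ∣ d + (A + B) * e ^ 2 + c * e ^ 4 := by
    rwa [← ZMod.intCast_zmod_eq_zero_iff_dvd]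
  obtain ⟨t, ht⟩ := padic_sq hp2 hn2 hn1
  refine ⟨t, 1, e, Or.inl one_ne_zero, ?_⟩
  rw [hc1, ← ht]
  push_cast
  ring

theorem loc_mult {p : ℕ} [Fact p.Prime] (hp2 : p ≠ 2) {A B d : ℤ} (hdb : d ∣ A * B)
    (hA : (p : ℤ) ∣ A) (hA2 : ¬ (p : ℤ) ^ 2 ∣ A) (hB : ¬ (p : ℤ) ∣ B) (h3 : p = 3 → B % 3 = 2) :
    QSol ℚ_[p] (A + B) (A * B) d := by
  have hpz : Prime (p : ℤ) := loc_prime
  by_cases hd : (p : ℤ) ∣ d
  · have hA0 : A ≠ 0 := by rintro rfl; exact hA2 (dvd_zero _)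
    have hB0 : B ≠ 0 := by rintro rfl; exact hB (dvd_zero _)
    have hb0 : A * B ≠ 0 := mul_ne_zero hA0 hB0
    obtain ⟨c, hc⟩ := hdb
    have hd0 : d ≠ 0 := by rintro rfl; exact hb0 (by rw [hc, zero_mul])
    have hc0 : c ≠ 0 := by rintro rfl; exact hb0 (by rw [hc, mul_zero])
    have hcp : ¬ (p : ℤ) ∣ c := by
      intro h
      have h4 : (p : ℤ) ^ 2 ∣ A * B := by
        rw [hc, pow_two]; exact mul_dvd_mul hd h
      have h5 : IsCoprime ((p : ℤ) ^ 2) B :=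
        IsCoprime.pow_left ((Prime.coprime_iff_not_dvd hpz).2 hB)
      exact hA2 (h5.dvd_of_dvd_mul_right h4)
    have h6 := loc_mult_aux hp2 (A := A) (B := B) (d := c) ⟨d, by rw [hc, mul_comm]⟩ hA hB h3 hcp
    have h7 := QSol.swap (K := ℚ_[p]) ⟨d, by rw [hc, mul_comm]⟩ hb0 h6
    have h8 : A * B / c = d := by rw [hc, Int.mul_ediv_cancel _ hc0]
    rwa [h8] at h7
  · exact loc_mult_aux hp2 hdb hA hB h3 hd

theorem loc_node {p : ℕ} [Fact p.Prime] (hp2 : p ≠ 2) {A B d : ℤ} (hdb : d ∣ A * B)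
    (hd : ¬ (p : ℤ) ∣ d) (hA : ¬ (p : ℤ) ∣ A)
    (h : legendreSym p d = 1 ∨ legendreSym p (-A * d) = 1) :
    QSol ℚ_[p] (A + B) (A * B) d := by
  have hpz : Prime (p : ℤ) := loc_prime
  rcases h with h | h
  · obtain ⟨t, ht⟩ := padic_sq hp2 hd h
    exact loc_one ht
  · have h7 : ¬ (p : ℤ) ∣ -A * d := by
      intro h
      rcases hpz.dvd_or_dvd h with h | h
      · exact hA ((dvd_neg).1 h)
      · exact hd h
    obtain ⟨s, hs⟩ := padic_sq hp2 h7 h
    refine loc_root hdb (loc_int_ne hd) (s := s) ?_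
    rw [← hs]
    push_cast
    ring

theorem loc_real {A B d : ℤ} (hdb : d ∣ A * B) (hA : 0 < A) (hd : d ≠ 0) :
    QSol ℝ (A + B) (A * B) d := by
  have hd0 : (d : ℝ) ≠ 0 := by exact_mod_cast hd
  have hA0 : (0 : ℝ) < A := by exact_mod_cast hA
  rcases lt_or_gt_of_ne hd with h | h
  · have hdr : (d : ℝ) < 0 := by exact_mod_cast h
    refine loc_root hdb hd0 (s := Real.sqrt (-A * d)) ?_
    rw [Real.sq_sqrt]
    nlinarith
  · have hdr : (0 : ℝ) < d := by exact_mod_cast h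
    exact loc_one (t := Real.sqrt d) (Real.sq_sqrt hdr.le).symm

end Pool.Agent.ShF
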