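import Pool.Agent.H23.Count
import Pool.Agent.H23.Symb

namespace Pool.Agent.ShF

open Pool.Agent.H23 WeierstrassCurve WeierstrassCurve.Affine

theorem mem_of_point {K : Type*} [Field K] [DecidableEq K] {a b : K} (G : Good a b) {x y : K}
    (hx : x ≠ 0) (h : y ^ 2 = x ^ 3 + a * x ^ 2 + b * x) :
    sqc (Units.mk0 x hx) ∈ (alpha G).range := by
  rw [AddMonoidHom.mem_range]
  refine ⟨mkP G x y h, ?_⟩
  rw [alpha_apply]
  congr 1
  ext
  rw [xu_mk G h hx, Units.val_mk0]

theorem mem_of_b {K : Type*} [Field K] [DecidableEq K] {a b : K} (G : Good a b) :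
    sqc (Units.mk0 b G.hb) ∈ (alpha G).range := by
  rw [AddMonoidHom.mem_range]
  have hT : (0 : K) ^ 2 = 0 ^ 3 + a * 0 ^ 2 + b * 0 := by ring
  refine ⟨mkP G 0 0 hT, ?_⟩
  rw [alpha_apply]
  congr 1
  ext
  rw [xu_mk_zero G hT rfl, Units.val_mk0]

theorem qsol_iff {K : Type*} [Field K] [DecidableEq K] {a b d : ℤ} (G : Good (a : K) (b : K))
    (hdb : d ∣ b) (hd : (d : K) ≠ 0) :
    QSol K a b d ↔ sqc (Units.mk0 (d : K) hd) ∈ (alpha G).range := by
  have hq : ((b / d : ℤ) : K) = b / d := by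
    obtain ⟨k, hk⟩ := hdb
    have hdz : d ≠ 0 := by rintro rfl; exact hd (by simp)
    rw [hk, Int.mul_ediv_cancel_left _ hdz]
    push_cast
    field_simp
  have hb0 : (b : K) ≠ 0 := G.hb
  unfold QSol
  rw [hq]
  constructor
  · rintro ⟨N, M, e, h0, h1⟩
    by_cases he : e = 0
    · subst he
      have hM : M ≠ 0 := h0.resolve_right (by simp)
      have h2 : sqc (Units.mk0 (d : K) hd) = 0 := by
        rw [sqc_eq_zero_iff]
        refine ⟨N / M ^ 2, ?_⟩
        rw [Units.val_mk0, div_pow, h1]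
        field_simp
        ring
      rw [h2]
      exact AddSubgroup.zero_mem _
    by_cases hM : M = 0
    · subst hM
      have h2 : sqc (Units.mk0 (d : K) hd) = sqc (Units.mk0 (b : K) G.hb) := by
        rw [sqc_eq_iff]
        refine ⟨d * N / e ^ 2, ?_⟩
        rw [Units.val_mul, Units.val_mk0, Units.val_mk0, div_pow, mul_pow, h1]
        field_simp
        ring
      rw [h2]
      exact mem_of_b G
    have hx : (d : K) * (M / e) ^ 2 ≠ 0 :=
      mul_ne_zero hd (pow_ne_zero _ (div_ne_zero hM he))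
    have hy : (d * M * N / e ^ 3) ^ 2 = ((d : K) * (M / e) ^ 2) ^ 3 + a * ((d : K) * (M / e) ^ 2) ^ 2
        + b * ((d : K) * (M / e) ^ 2) := by
      rw [div_pow, mul_pow, h1]
      field_simp
    have h2 := mem_of_point G hx hy
    have h3 : sqc (Units.mk0 ((d : K) * (M / e) ^ 2) hx) = sqc (Units.mk0 (d : K) hd) :=
      sqc_eq_of_sq (t := M / e) (by rw [Units.val_mk0, Units.val_mk0])
    rw [← h3]
    exact h2
  · intro h
    rw [AddMonoidHom.mem_range] at h
    obtain ⟨P, hP⟩ := h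
    rw [alpha_apply, sqc_eq_iff, Units.val_mul, Units.val_mk0] at hP
    obtain ⟨t, ht⟩ := hP
    rcases point_cases G P with rfl | ⟨x, y, h, rfl⟩
    · rw [xu_zero, Units.val_one, one_mul] at ht
      refine ⟨t, 1, 0, Or.inl one_ne_zero, ?_⟩
      rw [← ht]
      ring
    · by_cases hx : x = 0
      · rw [xu_mk_zero G h hx] at ht
        refine ⟨t / d, 0, 1, Or.inr one_ne_zero, ?_⟩
        rw [div_pow, ← ht]
        field_simp
        ring
      · rw [xu_mk G h hx] at ht
        have ht0 : t ≠ 0 := by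
          rintro rfl
          rw [zero_pow two_ne_zero] at ht
          exact (mul_ne_zero hx hd) ht
        refine ⟨d ^ 2 * y / t, t, d, Or.inl ht0, ?_⟩
        rw [div_pow, mul_pow, h, ← ht]
        have h4 : t ^ 4 = (x * d) ^ 2 := by rw [ht]; ring
        rw [h4]
        field_simp

end Pool.Agent.ShF
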