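import Pool.Agent.ShF.E1two
import Pool.Agent.ShF.LOC

/-!
# The family: the Selmer groups of the first model
-/

set_option linter.constructorNameAsVariable false

namespace Pool.Agent.ShF

open Pool.Agent.H23

theorem forall6 {C : ℕ → Prop} {a b c d e f : ℕ} (ha : C a) (hb : C b) (hc : C c) (hd : C d)
    (he : C e) (hf : C f) : ∀ i, C (![a, b, c, d, e, f] i) := by
  intro i
  fin_cases i
  · exact ha
  · exact hb
  · exact hc
  · exact hd
  · exact he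
  · exact hf

/-- The condition at a prime dividing `A - B` with `-A` a square. -/
theorem sel1_chi {A B d : ℤ} {p : ℕ} [hp : Fact p.Prime] (hp2 : p ≠ 2) (hC : (p : ℤ) ∣ A - B)
    (hA : ¬ (p : ℤ) ∣ A) (hB : ¬ (p : ℤ) ∣ B) (hAs : legendreSym p (-A) = 1)
    (hd : d ∈ Sel (A + B) (A * B)) : legendreSym p d = 1 := by
  have h2 : ¬ (p : ℤ) ∣ 2 := by
    intro h
    have : p ∣ 2 := by exact_mod_cast h
    exact hp2 ((Nat.prime_dvd_prime_iff_eq hp.1 Nat.prime_two).mp this)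
  have h3 : (p : ℤ) ∣ (A + B) ^ 2 - 4 * (A * B) := by
    have : (A + B) ^ 2 - 4 * (A * B) = (A - B) * (A - B) := by ring
    rw [this]; exact hC.mul_right _
  rcases cond_node hp2 hd.2.1 (ndvd_mul' hp.1 hA hB) h3 (hd.2.2.2 p) with h | h
  · exact h
  · obtain ⟨k, hk⟩ := hC
    have e : legendreSym p (-2 * (A + B) * d) = legendreSym p (2 * 2 * (-A * d)) := by
      rw [legendreSym.mod p (-2 * (A + B) * d), legendreSym.mod p (2 * 2 * (-A * d))]
      congr 1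
      apply Int.ModEq.symm
      rw [Int.modEq_iff_dvd]
      have hB' : B = A - p * k := by rw [← hk]; ring
      exact ⟨2 * k * d, by rw [hB']; ring⟩
    have h20 : ((2 : ℤ) : ZMod p) ≠ 0 := by
      rw [Ne, ZMod.intCast_zmod_eq_zero_iff_dvd]; exact h2
    have e2 : legendreSym p 2 * legendreSym p 2 = 1 := by
      have := legendreSym.sq_one p h20
      rw [pow_two] at this; exact this
    rw [e, legendreSym.mul, legendreSym.mul, legendreSym.mul, hAs, one_mul, e2, one_mul] at h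
    exact h

namespace Fam

variable {u v R T P Q : ℕ}

theorem chi_A_P [Fact P.Prime] (D : Fam u v R T P Q) :
    legendreSym P (-(3 * v * R)) = sg (bt P ^^ bh P) := by
  obtain ⟨⟨h1, h2, h3, h4, h5⟩, -⟩ := D.distinct
  obtain ⟨s, hs⟩ := chi_exists (P := P) (ndvd_of_ne D.pu D.pP h4.symm)
  obtain ⟨k1, k2, k3⟩ := D.sym_P hs
  have := chi_mul (chi_bn D.P_gt) (chi_mul (chi_mul (chi_bh D.P_gt) k2) k3)
  rw [neg_one_mul] at this
  rw [this]
  generalize bn P = n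
  generalize bt P = t
  generalize bh P = h
  cases n <;> cases t <;> cases h <;> cases s <;> simp

theorem chi_A_Q [Fact Q.Prime] (D : Fam u v R T P Q) :
    legendreSym Q (-(3 * v * R)) = sg (bt Q ^^ bh Q) := by
  obtain ⟨⟨h1, h2, h3, h4, h5⟩, -⟩ := D.distinct
  obtain ⟨s, hs⟩ := chi_exists (P := Q) (ndvd_of_ne D.pu D.pQ h5.symm)
  obtain ⟨k1, k2, k3⟩ := D.sym_Q hs
  have := chi_mul (chi_bn D.Q_gt) (chi_mul (chi_mul (chi_bh D.Q_gt) k2) k3)
  rw [neg_one_mul] at this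
  rw [this]
  generalize bn Q = n
  generalize bt Q = t
  generalize bh Q = h
  cases n <;> cases t <;> cases h <;> cases s <;> simp

theorem b1_primes (D : Fam u v R T P Q) (q : ℕ) (hq : q.Prime)
    (h : (q : ℤ) ∣ 3 * v * R * (4 * u * ((v : ℤ) - 2 * u))) : ∃ i, q = ![2, 3, u, v, R, T] i := by
  have z := Nat.prime_iff_prime_int.mp hq
  have hw : (q : ℤ) ∣ (v : ℤ) - 2 * u ↔ q = T := by
    rcases D.w_cases with e | e
    · rw [e]; exact prime_dvd_iff hq D.pT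
    · rw [e, dvd_neg]; exact prime_dvd_iff hq D.pT
  rw [z.dvd_mul, z.dvd_mul, z.dvd_mul, z.dvd_mul, z.dvd_mul, prime_dvd_iff hq D.pv,
    prime_dvd_iff hq D.pR, prime_dvd_iff hq D.pu, hw, show (3 : ℤ) = ((3 : ℕ) : ℤ) by norm_num,
    prime_dvd_iff hq Nat.prime_three] at h
  rcases h with ((h | h) | h) | ((h | h) | h)
  · exact ⟨1, h⟩
  · exact ⟨3, h⟩
  · exact ⟨4, h⟩
  · have : (4 : ℤ) = ((2 : ℕ) : ℤ) ^ 2 := by norm_num
    rw [this] at h
    exact ⟨0, (prime_dvd_iff hq Nat.prime_two).mp (z.dvd_of_dvd_pow h)⟩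
  · exact ⟨2, h⟩
  · exact ⟨5, h⟩

/-- Local solubility at every prime. -/
theorem loc_all (D : Fam u v R T P Q) (huv : u * v % 4 = 3) {d : ℤ}
    (hd : d ∣ 3 * v * R * (4 * u * ((v : ℤ) - 2 * u)))
    (hP : ∀ [Fact P.Prime], legendreSym P d = 1 ∨ legendreSym P (-(3 * v * R) * d) = 1)
    (hQ : ∀ [Fact Q.Prime], legendreSym Q d = 1 ∨ legendreSym Q (-(3 * v * R) * d) = 1)
    (p : ℕ) [hp : Fact p.Prime] :
    QSol ℚ_[p] (3 * v * R + 4 * u * ((v : ℤ) - 2 * u)) (3 * v * R * (4 * u * ((v : ℤ) - 2 * u))) d := by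
  obtain ⟨⟨h1, h2, h3, h4, h5⟩, ⟨h6, h7, h8, h9⟩, ⟨h10, h11, h12⟩, ⟨h13, h14⟩, h15⟩ := D.distinct
  have u3 := D.u3
  have v3 := D.v3
  have R3 := D.R_gt
  have P3 := D.P_gt
  have Q3 := D.Q_gt
  have T3 := D.T_gt
  have hpz := Nat.prime_iff_prime_int.mp hp.1
  by_cases e2 : p = 2
  · subst e2; exact D.loc_two huv hd
  have n4 : ¬ (p : ℤ) ∣ 4 := by
    have : (4 : ℤ) = ((2 : ℕ) : ℤ) ^ 2 := by norm_num
    rw [this]
    exact ndvd_pow' hp.1 2 (ndvd_of_ne Nat.prime_two hp.1 e2)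
  have sq_of : ∀ {x : ℤ}, ¬ (p : ℤ) ∣ x → ¬ (p : ℤ) ^ 2 ∣ p * x := by
    intro x hx h
    rw [pow_two] at h
    exact hx ((mul_dvd_mul_iff_left hpz.ne_zero).mp h)
  have nd3 : p ≠ 3 → ¬ (p : ℤ) ∣ 3 := by
    intro h
    have : (3 : ℤ) = ((3 : ℕ) : ℤ) := by norm_num
    rw [this]
    exact ndvd_of_ne Nat.prime_three hp.1 h
  -- the symmetric form
  have hd' : d ∣ 4 * u * ((v : ℤ) - 2 * u) * (3 * v * R) := by rw [mul_comm]; exact hd
  have swap : QSol ℚ_[p] (4 * u * ((v : ℤ) - 2 * u) + 3 * v * R)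
      (4 * u * ((v : ℤ) - 2 * u) * (3 * v * R)) d →
      QSol ℚ_[p] (3 * v * R + 4 * u * ((v : ℤ) - 2 * u))
        (3 * v * R * (4 * u * ((v : ℤ) - 2 * u))) d := by
    intro h
    rw [add_comm (3 * (v : ℤ) * R), mul_comm (3 * (v : ℤ) * R)]; exact h
  by_cases e3 : p = 3
  · subst e3
    refine loc_mult (by norm_num) hd ?_ ?_ ?_ ?_
    · exact ⟨v * R, by push_cast; ring⟩
    · have : (3 : ℤ) * v * R = ((3 : ℕ) : ℤ) * (v * R) := by push_cast; ring
      rw [this]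
      apply sq_of
      exact ndvd_mul' hp.1 (ndvd_of_ne D.pv hp.1 (by omega)) (ndvd_of_ne D.pR hp.1 (by omega))
    · exact ndvd_mul' hp.1 (ndvd_mul' hp.1 n4 (ndvd_of_ne D.pu hp.1 (by omega)))
        (D.ndvd_w hp.1 (by omega))
    · intro _
      have m1 := D.mod3
      have m2 := (mod6 D.pu D.u3).2
      have m3 : u % 3 = 1 ∨ u % 3 = 2 := by omega
      rcases m3 with m3 | m3
      · have a1 : (u : ℤ) % 3 = 1 := by omega
        have a2 : ((v : ℤ) - 2 * u) % 3 = 2 := by omega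
        rw [Int.mul_emod, Int.mul_emod 4, a1, a2]; norm_num
      · have a1 : (u : ℤ) % 3 = 2 := by omega
        have a2 : ((v : ℤ) - 2 * u) % 3 = 1 := by omega
        rw [Int.mul_emod, Int.mul_emod 4, a1, a2]; norm_num
  by_cases ev : p = v
  · subst ev
    refine loc_mult e2 hd ?_ ?_ ?_ (fun h => absurd h e3)
    · exact ⟨3 * R, by ring⟩
    · have : (3 : ℤ) * p * R = p * (3 * R) := by ring
      rw [this]
      exact sq_of (ndvd_mul' hp.1 (nd3 e3) (ndvd_of_ne D.pR hp.1 h6))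
    · exact ndvd_mul' hp.1 (ndvd_mul' hp.1 n4 (ndvd_of_ne D.pu hp.1 h1.symm))
        (D.ndvd_w hp.1 h7)
  by_cases eR : p = R
  · subst eR
    refine loc_mult e2 hd ?_ ?_ ?_ (fun h => absurd h e3)
    · exact ⟨3 * v, by ring⟩
    · have : (3 : ℤ) * v * p = p * (3 * v) := by ring
      rw [this]
      exact sq_of (ndvd_mul' hp.1 (nd3 e3) (ndvd_of_ne D.pv hp.1 h6.symm))
    · exact ndvd_mul' hp.1 (ndvd_mul' hp.1 n4 (ndvd_of_ne D.pu hp.1 h2.symm))
        (D.ndvd_w hp.1 h10)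
  have hA : ¬ (p : ℤ) ∣ 3 * v * R :=
    ndvd_mul' hp.1 (ndvd_mul' hp.1 (nd3 e3) (ndvd_of_ne D.pv hp.1 ev)) (ndvd_of_ne D.pR hp.1 eR)
  by_cases eu : p = u
  · subst eu
    apply swap
    refine loc_mult e2 hd' ?_ ?_ hA (fun h => absurd h e3)
    · exact ⟨4 * ((v : ℤ) - 2 * p), by ring⟩
    · have : 4 * (p : ℤ) * ((v : ℤ) - 2 * p) = p * (4 * ((v : ℤ) - 2 * p)) := by ring
      rw [this]
      exact sq_of (ndvd_mul' hp.1 n4 (D.ndvd_w hp.1 h3))
  by_cases eT : p = T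
  · subst eT
    apply swap
    obtain ⟨τ, hτ⟩ : ∃ τ, (v : ℤ) - 2 * u = sg τ * p := by
      rcases D.w_cases with h | h
      · exact ⟨false, by rw [h]; simp⟩
      · exact ⟨true, by rw [h]; simp⟩
    have e : 4 * (u : ℤ) * ((v : ℤ) - 2 * u) = p * (4 * u * sg τ) := by rw [hτ]; ring
    refine loc_mult e2 hd' ?_ ?_ hA (fun h => absurd h e3)
    · rw [e]; exact dvd_mul_right _ _
    · rw [e]
      apply sq_of
      apply ndvd_mul' hp.1 (ndvd_mul' hp.1 n4 (ndvd_of_ne D.pu hp.1 h3.symm))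
      intro h
      cases τ
      · exact hpz.not_isUnit (isUnit_of_dvd_one (by simpa using h))
      · rw [sg_true, dvd_neg] at h
        exact hpz.not_isUnit (isUnit_of_dvd_one h)
  have hB : ¬ (p : ℤ) ∣ 4 * u * ((v : ℤ) - 2 * u) :=
    ndvd_mul' hp.1 (ndvd_mul' hp.1 n4 (ndvd_of_ne D.pu hp.1 eu)) (D.ndvd_w hp.1 eT)
  have hdp : ¬ (p : ℤ) ∣ d := fun h => ndvd_mul' hp.1 hA hB (h.trans hd)
  by_cases eP : p = P
  · subst eP
    exact loc_node e2 hd hdp hA hP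
  by_cases eQ : p = Q
  · subst eQ
    exact loc_node e2 hd hdp hA hQ
  refine loc_good e2 hd hA hB ?_
  rw [D.AB]
  exact ndvd_mul' hp.1 (ndvd_of_ne D.pP hp.1 eP) (ndvd_of_ne D.pQ hp.1 eQ)

theorem huv_of {x : Bool} (hc : (u % 12, v % 24, x) ∈ clsList) : u * v % 4 = 3 := by
  have : (u % 12 % 4) * (v % 24 % 4) % 4 = 3 := by
    revert hc
    generalize u % 12 = U
    generalize v % 24 = V
    intro hc
    simp only [clsList, List.mem_cons, Prod.mk.injEq, List.not_mem_nil, or_false] at hc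
    rcases hc with h | h | h | h | h | h | h | h <;> obtain ⟨rfl, rfl, -⟩ := h <;> rfl
  rw [Nat.mod_mod_of_dvd _ (by norm_num), Nat.mod_mod_of_dvd _ (by norm_num), ← Nat.mul_mod] at this
  exact this

theorem ndvd_four {n : ℕ} (hn : n.Prime) (h3 : n ≠ 2) : ¬ (n : ℤ) ∣ 4 := by
  have : (4 : ℤ) = ((2 : ℕ) : ℤ) ^ 2 := by norm_num
  rw [this]
  exact ndvd_pow' hn 2 (ndvd_of_ne Nat.prime_two hn h3)

theorem inactive {p : ℕ} [Fact p.Prime] {A d : ℤ} (hpd : ¬ (p : ℤ) ∣ d)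
    (hA : legendreSym p (-A) = -1) : legendreSym p d = 1 ∨ legendreSym p (-A * d) = 1 := by
  have : (d : ZMod p) ≠ 0 := by rwa [Ne, ZMod.intCast_zmod_eq_zero_iff_dvd]
  rcases legendreSym.eq_one_or_neg_one p this with h | h
  · exact Or.inl h
  · right; rw [legendreSym.mul, hA, h]; norm_num

theorem ndvd_AB (D : Fam u v R T P Q) {n : ℕ} (hn : n.Prime) (n3 : 3 < n)
    (h1 : n ≠ u) (h2 : n ≠ v) (h3 : n ≠ R) (h4 : n ≠ T) :
    ¬ (n : ℤ) ∣ 3 * v * R ∧ ¬ (n : ℤ) ∣ 4 * u * ((v : ℤ) - 2 * u) :=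
  ⟨D.ndvd_A hn n3 h2 h3, ndvd_mul' hn (ndvd_mul' hn (ndvd_four hn (by omega))
    (ndvd_of_ne D.pu hn h1)) (D.ndvd_w hn h4)⟩

theorem gens_ndvd (D : Fam u v R T P Q) {n : ℕ} (hn : n.Prime) (n3 : 3 < n)
    (h1 : n ≠ u) (h2 : n ≠ v) (h3 : n ≠ R) (h4 : n ≠ T) :
    ∀ i, ¬ (n : ℤ) ∣ (![2, 3, u, v, R, T] i : ℕ) :=
  forall6 (C := fun m => ¬ (n : ℤ) ∣ (m : ℕ)) (ndvd_of_ne Nat.prime_two hn (by omega))
    (ndvd_of_ne Nat.prime_three hn (by omega)) (ndvd_of_ne D.pu hn h1)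
    (ndvd_of_ne D.pv hn h2) (ndvd_of_ne D.pR hn h3) (ndvd_of_ne D.pT hn h4)

/-- Membership in the Selmer group, if `P` is the active prime. -/
theorem sel1_iff_P (D : Fam u v R T P Q) [Fact P.Prime] [Fact Q.Prime] (huv : u * v % 4 = 3)
    (a1 : legendreSym P (-(3 * v * R)) = 1) (a2 : legendreSym Q (-(3 * v * R)) = -1)
    {d : ℤ} (hsq : Squarefree d) (hdb : d ∣ 3 * v * R * (4 * u * ((v : ℤ) - 2 * u))) :
    d ∈ Sel (3 * v * R + 4 * u * ((v : ℤ) - 2 * u)) (3 * v * R * (4 * u * ((v : ℤ) - 2 * u))) ↔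
      legendreSym P d = 1 := by
  obtain ⟨⟨h1, h2, h3, h4, h5⟩, ⟨h6, h7, h8, h9⟩, ⟨h10, h11, h12⟩, ⟨h13, h14⟩, h15⟩ := D.distinct
  obtain ⟨hPA, hPB⟩ := D.ndvd_AB D.pP D.P_gt h4.symm h8.symm h11.symm h13.symm
  obtain ⟨hQA, hQB⟩ := D.ndvd_AB D.pQ D.Q_gt h5.symm h9.symm h12.symm h14.symm
  have hQd : ¬ (Q : ℤ) ∣ d := fun h => ndvd_mul' D.pQ hQA hQB (h.trans hdb)
  have hCP : (P : ℤ) ∣ 3 * v * R - 4 * u * ((v : ℤ) - 2 * u) := by rw [D.AB]; exact dvd_mul_right _ _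
  have P2 : P ≠ 2 := by have := D.P_gt; omega
  constructor
  · intro hd
    exact sel1_chi P2 hCP hPA hPB a1 hd
  · intro hchi
    refine ⟨hsq, hdb, loc_real hdb ?_ hsq.ne_zero, ?_⟩
    · obtain ⟨p1, p2, p3, p4, p5, p6⟩ := D.pos
      positivity
    · intro p hp
      exact D.loc_all huv hdb (Or.inl hchi) (inactive hQd a2) p

/-- Membership in the Selmer group, if `Q` is the active prime. -/
theorem sel1_iff_Q (D : Fam u v R T P Q) [Fact P.Prime] [Fact Q.Prime] (huv : u * v % 4 = 3)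
    (a1 : legendreSym Q (-(3 * v * R)) = 1) (a2 : legendreSym P (-(3 * v * R)) = -1)
    {d : ℤ} (hsq : Squarefree d) (hdb : d ∣ 3 * v * R * (4 * u * ((v : ℤ) - 2 * u))) :
    d ∈ Sel (3 * v * R + 4 * u * ((v : ℤ) - 2 * u)) (3 * v * R * (4 * u * ((v : ℤ) - 2 * u))) ↔
      legendreSym Q d = 1 := by
  obtain ⟨⟨h1, h2, h3, h4, h5⟩, ⟨h6, h7, h8, h9⟩, ⟨h10, h11, h12⟩, ⟨h13, h14⟩, h15⟩ := D.distinct
  obtain ⟨hPA, hPB⟩ := D.ndvd_AB D.pP D.P_gt h4.symm h8.symm h11.symm h13.symm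
  obtain ⟨hQA, hQB⟩ := D.ndvd_AB D.pQ D.Q_gt h5.symm h9.symm h12.symm h14.symm
  have hPd : ¬ (P : ℤ) ∣ d := fun h => ndvd_mul' D.pP hPA hPB (h.trans hdb)
  have hCQ : (Q : ℤ) ∣ 3 * v * R - 4 * u * ((v : ℤ) - 2 * u) := by rw [D.AB]; exact dvd_mul_left _ _
  have Q2 : Q ≠ 2 := by have := D.Q_gt; omega
  constructor
  · intro hd
    exact sel1_chi Q2 hCQ hQA hQB a1 hd
  · intro hchi
    refine ⟨hsq, hdb, loc_real hdb ?_ hsq.ne_zero, ?_⟩
    · obtain ⟨p1, p2, p3, p4, p5, p6⟩ := D.pos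
      positivity
    · intro p hp
      exact D.loc_all huv hdb (inactive hPd a2) (Or.inl hchi) p

theorem active (D : Fam u v R T P Q) {x : Bool} [hv : Fact v.Prime]
    (hx : legendreSym v u = sg x) (hc : (u % 12, v % 24, x) ∈ clsList) :
    ∃ (p : ℕ) (hp : Fact p.Prime), (∀ i, ¬ (p : ℤ) ∣ (![2, 3, u, v, R, T] i : ℕ)) ∧
      (legendreSym p (-1) = -1 ∨ ∃ i, legendreSym p (![2, 3, u, v, R, T] i : ℕ) = -1) ∧
      ∀ d : ℤ, Squarefree d → d ∣ 3 * v * R * (4 * u * ((v : ℤ) - 2 * u)) →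
        (d ∈ Sel (3 * v * R + 4 * u * ((v : ℤ) - 2 * u)) (3 * v * R * (4 * u * ((v : ℤ) - 2 * u))) ↔
          legendreSym p d = 1) := by
  have hu : Fact u.Prime := ⟨D.pu⟩
  have hR : Fact R.Prime := ⟨D.pR⟩
  have hP : Fact P.Prime := ⟨D.pP⟩
  have hQ : Fact Q.Prime := ⟨D.pQ⟩
  obtain ⟨⟨h1, h2, h3, h4, h5⟩, ⟨h6, h7, h8, h9⟩, ⟨h10, h11, h12⟩, ⟨h13, h14⟩, h15⟩ := D.distinct
  have huv := huv_of hc
  have ht := table4 _ hc
  simp only at ht
  obtain ⟨m1, m2, m3⟩ := D.residues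
  obtain ⟨b1, b2, b3, b4⟩ := D.sym_recip hx
  rcases ht with ⟨k1, k2, k3⟩ | ⟨k1, k2, k3⟩
  · refine ⟨P, hP, D.gens_ndvd D.pP D.P_gt h4.symm h8.symm h11.symm h13.symm, ?_, ?_⟩
    · rcases k3 with k | k | k
      · left; rw [chi_bn D.P_gt, bn_mod, m2, k]; rfl
      · right; refine ⟨0, ?_⟩
        have := chi_bt (p := P) D.P_gt
        rw [bt_mod, m2, k] at this
        exact_mod_cast this
      · right; refine ⟨2, ?_⟩
        rw [bn_mod12 u, bn_mod v, bn_mod P, m2] at b3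
        rw [k] at b3
        exact b3
    · intro d hsq hdb
      have a1 : legendreSym P (-(3 * v * R)) = 1 := by
        rw [D.chi_A_P, bt_mod, bh_mod, m2, k1]; rfl
      have a2 : legendreSym Q (-(3 * v * R)) = -1 := by
        rw [D.chi_A_Q, bt_mod, bh_mod, m3, k2]; rfl
      exact D.sel1_iff_P huv a1 a2 hsq hdb
  · refine ⟨Q, hQ, D.gens_ndvd D.pQ D.Q_gt h5.symm h9.symm h12.symm h14.symm, ?_, ?_⟩
    · rcases k3 with k | k | k
      · left; rw [chi_bn D.Q_gt, bn_mod, m3, k]; rfl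
      · right; refine ⟨0, ?_⟩
        have := chi_bt (p := Q) D.Q_gt
        rw [bt_mod, m3, k] at this
        exact_mod_cast this
      · right; refine ⟨2, ?_⟩
        rw [bn_mod12 u, bn_mod v, bn_mod Q, bh_mod12 u, m3] at b4
        rw [k] at b4
        exact b4
    · intro d hsq hdb
      have a1 : legendreSym Q (-(3 * v * R)) = 1 := by
        rw [D.chi_A_Q, bt_mod, bh_mod, m3, k1]; rfl
      have a2 : legendreSym P (-(3 * v * R)) = -1 := by
        rw [D.chi_A_P, bt_mod, bh_mod, m2, k2]; rfl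
      exact D.sel1_iff_Q huv a1 a2 hsq hdb

theorem gens_inj (D : Fam u v R T P Q) : Function.Injective ![2, 3, u, v, R, T] := by
  obtain ⟨⟨h1, h2, h3, h4, h5⟩, ⟨h6, h7, h8, h9⟩, ⟨h10, h11, h12⟩, ⟨h13, h14⟩, h15⟩ := D.distinct
  have u3 := D.u3
  have v3 := D.v3
  have R3 := D.R_gt
  have T3 := D.T_gt
  intro i j hij
  fin_cases i <;> fin_cases j <;>
    simp only [Fin.mk_zero, Fin.isValue, Matrix.cons_val_zero, Fin.mk_one,
      Matrix.cons_val_one, Fin.reduceFinMk, Matrix.cons_val] at hij ⊢ <;> omega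

theorem gens_dvd (D : Fam u v R T P Q) :
    ∀ i, ((![2, 3, u, v, R, T] i : ℕ) : ℤ) ∣ 3 * v * R * (4 * u * ((v : ℤ) - 2 * u)) := by
  have hT' : (T : ℤ) ∣ (v : ℤ) - 2 * u := by
    rcases D.w_cases with e | e
    · rw [e]
    · rw [e, dvd_neg]
  exact forall6 (C := fun n => (n : ℤ) ∣ 3 * v * R * (4 * u * ((v : ℤ) - 2 * u)))
    ⟨3 * v * R * (2 * u * ((v : ℤ) - 2 * u)), by push_cast; ring⟩
    ⟨v * R * (4 * u * ((v : ℤ) - 2 * u)), by push_cast; ring⟩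
    ⟨3 * v * R * (4 * ((v : ℤ) - 2 * u)), by ring⟩
    ⟨3 * R * (4 * u * ((v : ℤ) - 2 * u)), by ring⟩
    ⟨3 * v * (4 * u * ((v : ℤ) - 2 * u)), by ring⟩
    ((hT'.mul_left _).mul_left _)

/-- The Selmer group of the first model. -/
theorem card_sel1 (D : Fam u v R T P Q) {x : Bool} [hv : Fact v.Prime]
    (hx : legendreSym v u = sg x) (hc : (u % 12, v % 24, x) ∈ clsList) :
    (Sel (3 * v * R + 4 * u * ((v : ℤ) - 2 * u)) (3 * v * R * (4 * u * ((v : ℤ) - 2 * u)))).ncard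
      = 2 ^ 6 := by
  classical
  obtain ⟨p, hp, hnd, hneg, hall⟩ := D.active hx hc
  set Pr : Fin 6 → ℕ := ![2, 3, u, v, R, T] with hPr
  have hprimes : ∀ i, (Pr i).Prime :=
    forall6 (C := fun n => n.Prime) Nat.prime_two Nat.prime_three D.pu D.pv D.pR D.pT
  have hinj : Function.Injective Pr := D.gens_inj
  have hs : ∀ i, legendreSym p (Pr i) = 1 ∨ legendreSym p (Pr i) = -1 := by
    intro i
    apply legendreSym.eq_one_or_neg_one
    rw [Ne, ZMod.intCast_zmod_eq_zero_iff_dvd]; exact hnd i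
  have hc' : legendreSym p (-1) = 1 ∨ legendreSym p (-1) = -1 := by
    apply legendreSym.eq_one_or_neg_one
    push_cast
    exact neg_ne_zero.mpr one_ne_zero
  have hcard := card_half_pair (n := 6) (fun i => legendreSym p (Pr i)) hs _ hc' hneg
  have hset : Sel (3 * v * R + 4 * u * ((v : ℤ) - 2 * u))
      (3 * v * R * (4 * u * ((v : ℤ) - 2 * u))) =
      ((Finset.univ.filter (fun x : Finset (Fin 6) × Bool =>
        (if x.2 then legendreSym p (-1) else 1) * ∏ i ∈ x.1, legendreSym p (Pr i) = 1)).image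
        (fun x => sg x.2 * ∏ i ∈ x.1, (Pr i : ℤ)) : Finset ℤ) := by
    ext d
    rw [Finset.coe_image]
    constructor
    · intro hd
      obtain ⟨S, e, hSe⟩ := exists_subset Pr hprimes D.b1_ne hd.2.1 D.b1_primes hd.1
      refine ⟨(S, e), ?_, hSe.symm⟩
      have := (hall d hd.1 hd.2.1).mp hd
      rw [hSe, leg_prod] at this
      simpa using this
    · rintro ⟨⟨S, e⟩, hS, rfl⟩
      simp only [Finset.coe_filter, Finset.mem_univ, true_and, Set.mem_ofPred_eq] at hS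
      have hsq := squarefree_prod Pr hprimes hinj S e
      have hdvd : (sg e * ∏ i ∈ S, (Pr i : ℤ)) ∣ 3 * v * R * (4 * u * ((v : ℤ) - 2 * u)) := by
        apply squarefree_dvd_of_primes hsq
        intro q hq hqd
        rcases hq.dvd_or_dvd hqd with h | h
        · exfalso
          cases e
          · exact hq.not_isUnit (isUnit_of_dvd_one (by simpa using h))
          · rw [sg_true, dvd_neg] at h
            exact hq.not_isUnit (isUnit_of_dvd_one h)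
        · obtain ⟨i, -, hi⟩ := (hq.dvd_finsetProd_iff _).mp h
          exact hi.trans (D.gens_dvd i)
      exact (hall _ hsq hdvd).mpr (by rw [leg_prod]; exact hS)
  rw [hset, Set.ncard_coe_finset, Finset.card_image_of_injective, hcard]
  rintro ⟨S, e⟩ ⟨S', e'⟩ h
  obtain ⟨r1, r2⟩ := prod_inj Pr hprimes hinj h
  exact Prod.ext r1 r2

end Fam

end Pool.Agent.ShF
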