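import Pool.Agent.ShF.E1

/-!
# The family: the dual Selmer group of the first model is trivial
-/

namespace Pool.Agent.ShF

open Pool.Agent.H23

namespace Fam

variable {u v R T P Q : ℕ}

theorem disc1_ndvd (D : Fam u v R T P Q) {n : ℕ} (hn : n.Prime) (h1 : n ≠ P) (h2 : n ≠ Q) :
    ¬ (n : ℤ) ∣ (3 * v * R + 4 * u * ((v : ℤ) - 2 * u)) ^ 2
      - 4 * (3 * v * R * (4 * u * ((v : ℤ) - 2 * u))) := by
  rw [D.disc1]
  exact ndvd_pow' hn 2 (ndvd_mul' hn (ndvd_of_ne D.pP hn h1) (ndvd_of_ne D.pQ hn h2))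

/-- The dual Selmer group of the first model is trivial. -/
theorem sel1_dual (D : Fam u v R T P Q) {x : Bool} [hv : Fact v.Prime]
    (hx : legendreSym v u = sg x) (hc : (u % 12, v % 24, x) ∈ clsList) {d : ℤ}
    (hd : d ∈ Sel (-2 * (3 * v * R + 4 * u * ((v : ℤ) - 2 * u)))
      ((3 * v * R + 4 * u * ((v : ℤ) - 2 * u)) ^ 2
        - 4 * (3 * v * R * (4 * u * ((v : ℤ) - 2 * u))))) :
    d = 1 := by
  have hu : Fact u.Prime := ⟨D.pu⟩
  have hR : Fact R.Prime := ⟨D.pR⟩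
  have hP : Fact P.Prime := ⟨D.pP⟩
  have hQ : Fact Q.Prime := ⟨D.pQ⟩
  have h3 : Fact (Nat.Prime 3) := ⟨Nat.prime_three⟩
  obtain ⟨⟨h1, h2, h3', h4, h5⟩, ⟨h6, h7, h8, h9⟩, ⟨h10, h11, h12⟩, ⟨h13, h14⟩, h15⟩ := D.distinct
  have u3 := D.u3
  have v3 := D.v3
  have R3 := D.R_gt
  have P3 := D.P_gt
  have Q3 := D.Q_gt
  have T3 := D.T_gt
  have z : ∀ {n : ℕ}, n.Prime → Prime (n : ℤ) := fun h => Nat.prime_iff_prime_int.mp h
  -- the four conditions
  have q3 : legendreSym 3 d = 1 := by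
    refine dual_chi (c := v * R * (4 * u * ((v : ℤ) - 2 * u))) (by norm_num)
      (by push_cast; ring) ?_ (D.disc1_ndvd Nat.prime_three (by omega) (by omega)) hd
    exact ndvd_mul' Nat.prime_three (ndvd_mul' Nat.prime_three
      (ndvd_of_ne D.pv Nat.prime_three (by omega)) (ndvd_of_ne D.pR Nat.prime_three (by omega)))
      (ndvd_mul' Nat.prime_three (ndvd_mul' Nat.prime_three (ndvd_four Nat.prime_three (by norm_num))
        (ndvd_of_ne D.pu Nat.prime_three (by omega))) (D.ndvd_w Nat.prime_three (by omega)))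
  have qv : legendreSym v d = 1 := by
    refine dual_chi (c := 3 * R * (4 * u * ((v : ℤ) - 2 * u))) (by omega)
      (by ring) ?_ (D.disc1_ndvd D.pv h8 h9) hd
    exact ndvd_mul' D.pv (ndvd_mul' D.pv (ndvd_three' (by omega)) (ndvd_of_ne D.pR D.pv h6))
      (ndvd_mul' D.pv (ndvd_mul' D.pv (ndvd_four D.pv (by omega))
        (ndvd_of_ne D.pu D.pv h1.symm)) (D.ndvd_w D.pv h7))
  have qR : legendreSym R d = 1 := by
    refine dual_chi (c := 3 * v * (4 * u * ((v : ℤ) - 2 * u))) (by omega)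
      (by ring) ?_ (D.disc1_ndvd D.pR h11 h12) hd
    exact ndvd_mul' D.pR (ndvd_mul' D.pR (ndvd_three' (by omega)) (ndvd_of_ne D.pv D.pR h6.symm))
      (ndvd_mul' D.pR (ndvd_mul' D.pR (ndvd_four D.pR (by omega))
        (ndvd_of_ne D.pu D.pR h2.symm)) (D.ndvd_w D.pR h10))
  have qu : legendreSym u d = 1 := by
    refine dual_chi (c := 3 * v * R * (4 * ((v : ℤ) - 2 * u))) (by omega)
      (by ring) ?_ (D.disc1_ndvd D.pu h4 h5) hd
    exact ndvd_mul' D.pu (D.ndvd_A D.pu u3 h1 h2)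
      (ndvd_mul' D.pu (ndvd_four D.pu (by omega)) (D.ndvd_w D.pu h3'))
  -- the shape of `d`
  obtain ⟨hsq, hdb, -⟩ := hd
  have hdb' : d ∣ P * (Q * 1) := by
    apply squarefree_dvd_of_primes hsq
    intro q hq hqd
    have h := hqd.trans hdb
    rw [D.disc1] at h
    have h' := hq.dvd_of_dvd_pow h
    rwa [mul_one]
  obtain ⟨i, d1, rfl, k1, s1⟩ := peel hsq (z D.pP) hdb'
  obtain ⟨j, d2, rfl, k2, s2⟩ := peel s1 (z D.pQ) k1
  obtain ⟨e, rfl⟩ := unit_sg k2
  have gen : ∀ {p : ℕ} [Fact p.Prime] {n t s : Bool}, legendreSym p (-1) = sg n →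
      legendreSym p P = sg t → legendreSym p Q = sg s →
      legendreSym p (pw i P * (pw j Q * sg e)) = 1 →
      ((e && n) ^^ (i && t) ^^ (j && s)) = false := by
    intro p _ n t s hn ht hs h
    have a1 := chi_pw ht i
    have a2 := chi_pw hs j
    have a4 : legendreSym p (sg e) = sg (e && n) := by
      cases e
      · exact legendreSym.at_one p
      · simpa using hn
    have := chi_mul a1 (chi_mul a2 a4)
    rw [this] at h
    have := sg_one h
    revert this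
    generalize (e && n) = A1
    generalize (i && t) = A2
    generalize (j && s) = A3
    revert A1 A2 A3
    decide
  -- symbols at three
  have m0 := D.mod3
  have m0' := (mod6 D.pu D.u3).2
  have mP : (P : ℤ) % 3 ≠ 0 ∧ ((P : ℤ) % 3 == 2) = !(u % 12 % 3 == 2) := by
    have e := D.eP
    have e1 : u % 3 = 1 ∨ u % 3 = 2 := by omega
    rcases e1 with e1 | e1
    · have a1 : (P : ℤ) % 3 = 2 := by omega
      have a2 : u % 12 % 3 = 1 := by omega
      rw [a1, a2]; decide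
    · have a1 : (P : ℤ) % 3 = 1 := by omega
      have a2 : u % 12 % 3 = 2 := by omega
      rw [a1, a2]; decide
  have mQ : (Q : ℤ) % 3 ≠ 0 ∧ ((Q : ℤ) % 3 == 2) = !(u % 12 % 3 == 2) := by
    have e := D.eQ
    have e1 : u % 3 = 1 ∨ u % 3 = 2 := by omega
    rcases e1 with e1 | e1
    · have a1 : (Q : ℤ) % 3 = 2 := by omega
      have a2 : u % 12 % 3 = 1 := by omega
      rw [a1, a2]; decide
    · have a1 : (Q : ℤ) % 3 = 1 := by omega
      have a2 : u % 12 % 3 = 2 := by omega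
      rw [a1, a2]; decide
  have hS3P := chi3 mP.1
  rw [mP.2] at hS3P
  have hS3Q := chi3 mQ.1
  rw [mQ.2] at hS3Q
  have neg3 : legendreSym 3 (-1) = sg true := chi3_two (by norm_num)
  obtain ⟨b1, b2, b3, b4⟩ := D.sym_recip hx
  obtain ⟨m1, m2, m3⟩ := D.residues
  have r1 := gen neg3 hS3P hS3Q q3
  have r2 := gen (chi_bn D.u3) (D.sym_u b1).2.1 (D.sym_u b1).2.2.1 qu
  have r3 := gen (chi_bn D.v3) (D.sym_v hx).2.1 (D.sym_v hx).2.2.1 qv
  have r4 := gen (chi_bn D.R_gt) (D.sym_R b2).2.1 (D.sym_R b2).2.2 qR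
  have ht := table1 _ hc e i j
  simp only at ht
  rw [bn_mod12 u, bn_mod v, bh_mod12 u] at r2
  rw [bn_mod v, bt_mod v] at r3
  rw [bn_mod R, bt_mod R, bn_mod12 u, bn_mod v, m1] at r4
  obtain ⟨f1, f2, f3⟩ := ht (by simpa only [Bool.and_true] using r1) r2 r3 r4
  subst f1; subst f2; subst f3
  simp

theorem card_sel1_dual (D : Fam u v R T P Q) {x : Bool} [hv : Fact v.Prime]
    (hx : legendreSym v u = sg x) (hc : (u % 12, v % 24, x) ∈ clsList) :
    (Sel (-2 * (3 * v * R + 4 * u * ((v : ℤ) - 2 * u)))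
      ((3 * v * R + 4 * u * ((v : ℤ) - 2 * u)) ^ 2
        - 4 * (3 * v * R * (4 * u * ((v : ℤ) - 2 * u))))).ncard = 2 ^ 0 := by
  rw [pow_zero]
  apply le_antisymm
  · rw [Set.ncard_le_one (sel_finite _ _ D.disc1_ne)]
    intro a ha b hb
    rw [D.sel1_dual hx hc ha, D.sel1_dual hx hc hb]
  · rw [Nat.one_le_iff_ne_zero, Nat.ne_zero_iff_zero_lt, Set.ncard_pos (sel_finite _ _ D.disc1_ne)]
    exact ⟨1, glob_subset_sel _ _ (one_mem_glob _ _)⟩

end Fam

end Pool.Agent.ShF
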