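import Pool.Agent.H23.Count
import Pool.Agent.H23.Symb
import Pool.Agent.ShF.PSQ

/-!
# Square classes of integers in the field of `2`-adic numbers
-/

namespace Pool.Agent.ShF

open Pool.Agent.H23 WeierstrassCurve WeierstrassCurve.Affine

theorem two_mul_mem (H : AddSubgroup (SqCl ℚ_[2])) {u v : ℚ_[2]} (hu : u ≠ 0) (hv : v ≠ 0)
    (h1 : sqc (Units.mk0 u hu) ∈ H) (h2 : sqc (Units.mk0 v hv) ∈ H) (huv : u * v ≠ 0) :
    sqc (Units.mk0 (u * v) huv) ∈ H := by
  have : Units.mk0 (u * v) huv = Units.mk0 u hu * Units.mk0 v hv := by ext; simp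
  rw [this, sqc_mul]
  exact H.add_mem h1 h2

theorem two_odd (H : AddSubgroup (SqCl ℚ_[2])) {c : ℤ} (hc : (c : ℚ_[2]) ≠ 0)
    (h : sqc (Units.mk0 (c : ℚ_[2]) hc) ∈ H) {n : ℤ} (hn : (n : ℚ_[2]) ≠ 0)
    (h8 : (n * c) % 8 = 1) : sqc (Units.mk0 (n : ℚ_[2]) hn) ∈ H := by
  obtain ⟨t, ht⟩ := padic_two_sq h8
  have : sqc (Units.mk0 (n : ℚ_[2]) hn) = sqc (Units.mk0 (c : ℚ_[2]) hc) := by
    rw [sqc_eq_iff]
    refine ⟨t, ?_⟩
    rw [← ht]
    push_cast
    simp
  rw [this]
  exact h

theorem two_all (H : AddSubgroup (SqCl ℚ_[2]))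
    (h1 : sqc (Units.mk0 (-1 : ℚ_[2]) (by norm_num)) ∈ H)
    (h2 : sqc (Units.mk0 (2 : ℚ_[2]) (by norm_num)) ∈ H)
    (h3 : sqc (Units.mk0 (3 : ℚ_[2]) (by norm_num)) ∈ H)
    {n : ℤ} (hn : (n : ℚ_[2]) ≠ 0) : sqc (Units.mk0 (n : ℚ_[2]) hn) ∈ H := by
  have key : ∀ m : ℕ, ∀ n : ℤ, n.natAbs = m → ∀ hn : (n : ℚ_[2]) ≠ 0,
      sqc (Units.mk0 (n : ℚ_[2]) hn) ∈ H := by
    intro m
    induction m using Nat.strong_induction_on with
    | _ m ih =>
      intro n hnm hn
      have hn0 : n ≠ 0 := by rintro rfl; simp at hn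
      rcases Int.even_or_odd n with ⟨c, hc⟩ | hodd
      · have hc0 : c ≠ 0 := by rintro rfl; exact hn0 (by simpa using hc)
        have hcq : (c : ℚ_[2]) ≠ 0 := by exact_mod_cast hc0
        have h4 := ih c.natAbs (by omega) c rfl hcq
        have h5 : (n : ℚ_[2]) = 2 * c := by rw [hc]; push_cast; ring
        have h6 := two_mul_mem H (by norm_num) hcq h2 h4 (by rw [← h5]; exact hn)
        have h7 : Units.mk0 (n : ℚ_[2]) hn = Units.mk0 (2 * (c : ℚ_[2])) (by rw [← h5]; exact hn) := by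
          ext; simp [h5]
        rw [h7]
        exact h6
      · have h8 : n % 8 = 1 ∨ n % 8 = 3 ∨ n % 8 = 5 ∨ n % 8 = 7 := by
          have := Int.odd_iff.1 hodd
          omega
        rcases h8 with h | h | h | h
        · refine two_odd H (c := 1) (by norm_num) ?_ hn (by omega)
          have : sqc (Units.mk0 (((1 : ℤ) : ℚ_[2])) (by norm_num)) = 0 := by
            rw [sqc_eq_zero_iff]
            exact ⟨1, by simp⟩
          rw [this]
          exact H.zero_mem
        · refine two_odd H (c := 3) (by norm_num) ?_ hn (by omega)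
          have : Units.mk0 (((3 : ℤ) : ℚ_[2])) (by norm_num) = Units.mk0 (3 : ℚ_[2]) (by norm_num) := by
            ext; simp
          rw [this]
          exact h3
        · refine two_odd H (c := -3) (by norm_num) ?_ hn (by omega)
          have h6 := two_mul_mem H (by norm_num) (by norm_num) h1 h3 (by norm_num)
          have : Units.mk0 (((-3 : ℤ) : ℚ_[2])) (by norm_num) =
              Units.mk0 (-1 * 3 : ℚ_[2]) (by norm_num) := by
            ext; simp
          rw [this]
          exact h6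
        · refine two_odd H (c := -1) (by norm_num) ?_ hn (by omega)
          have : Units.mk0 (((-1 : ℤ) : ℚ_[2])) (by norm_num) =
              Units.mk0 (-1 : ℚ_[2]) (by norm_num) := by
            ext; simp
          rw [this]
          exact h1
  exact key n.natAbs n rfl hn

end Pool.Agent.ShF
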