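import Pool.Agent.ShF.E2c
import Pool.Agent.ShF.QALPHA
import Pool.Agent.ShF.TWO
import Pool.Agent.ShF.PSQ

/-!
# The family: the first model at two
-/

namespace Pool.Agent.ShF

open Pool.Agent.H23

/-- The class of a nonzero element lies in `H`. -/
def InH (H : AddSubgroup (SqCl ℚ_[2])) (x : ℚ_[2]) : Prop :=
  ∃ hx : x ≠ 0, sqc (Units.mk0 x hx) ∈ H

theorem InH.mul {H : AddSubgroup (SqCl ℚ_[2])} {x y : ℚ_[2]} (hx : InH H x) (hy : InH H y) :
    InH H (x * y) := by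
  obtain ⟨hx0, hx⟩ := hx
  obtain ⟨hy0, hy⟩ := hy
  refine ⟨mul_ne_zero hx0 hy0, ?_⟩
  have : Units.mk0 (x * y) (mul_ne_zero hx0 hy0) = Units.mk0 x hx0 * Units.mk0 y hy0 := by
    ext; simp
  rw [this, sqc_mul]
  exact H.add_mem hx hy

theorem InH.of_sq {H : AddSubgroup (SqCl ℚ_[2])} {x y t : ℚ_[2]} (hx : InH H x) (hy : y ≠ 0)
    (h : x * y = t ^ 2) : InH H y := by
  obtain ⟨hx0, hx⟩ := hx
  refine ⟨hy, ?_⟩
  have : sqc (Units.mk0 x hx0) = sqc (Units.mk0 y hy) := by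
    rw [sqc_eq_iff]; exact ⟨t, by push_cast; exact h⟩
  rwa [← this]

/-- Integers with product `1` modulo `8` have the same class. -/
theorem InH.of_mod {H : AddSubgroup (SqCl ℚ_[2])} {m n : ℤ} (hm : InH H (m : ℚ_[2]))
    (h : (m * n) % 8 = 1) : InH H (n : ℚ_[2]) := by
  obtain ⟨t, ht⟩ := padic_two_sq h
  refine hm.of_sq (t := t) ?_ (by rw [← ht]; push_cast; ring)
  intro h0
  have : n = 0 := by exact_mod_cast h0
  rw [this] at h
  norm_num at h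

namespace Fam

variable {u v R T P Q : ℕ}

theorem hA (D : Fam u v R T P Q) : (3 : ℤ) * v * R ≠ 0 := by
  obtain ⟨p1, p2, p3, p4, p5, p6⟩ := D.pos
  positivity

theorem hB (D : Fam u v R T P Q) : (4 : ℤ) * u * ((v : ℤ) - 2 * u) ≠ 0 := by
  obtain ⟨p1, p2, p3, p4, p5, p6⟩ := D.pos
  exact mul_ne_zero (by positivity) D.prime_w.ne_zero

theorem b1_ne (D : Fam u v R T P Q) : 3 * (v : ℤ) * R * (4 * u * ((v : ℤ) - 2 * u)) ≠ 0 :=
  mul_ne_zero D.hA D.hB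

theorem disc1 (D : Fam u v R T P Q) :
    (3 * v * R + 4 * u * ((v : ℤ) - 2 * u)) ^ 2 - 4 * (3 * (v : ℤ) * R * (4 * u * ((v : ℤ) - 2 * u)))
      = ((P : ℤ) * Q) ^ 2 := by
  rw [← D.AB]; ring

theorem disc1_ne (D : Fam u v R T P Q) :
    (3 * v * R + 4 * u * ((v : ℤ) - 2 * u)) ^ 2 - 4 * (3 * (v : ℤ) * R * (4 * u * ((v : ℤ) - 2 * u)))
      ≠ 0 := by
  rw [D.disc1]
  obtain ⟨p1, p2, p3, p4, p5, p6⟩ := D.pos
  positivity

theorem good1 (D : Fam u v R T P Q) {K : Type*} [Field K] [CharZero K] :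
    Good ((3 * v * R + 4 * u * ((v : ℤ) - 2 * u) : ℤ) : K)
      ((3 * v * R * (4 * u * ((v : ℤ) - 2 * u)) : ℤ) : K) where
  h2 := two_ne_zero
  hb := by exact_mod_cast D.b1_ne
  hd := by exact_mod_cast D.disc1_ne

/-- Everything is soluble over `ℚ₂`. -/
theorem loc_two (D : Fam u v R T P Q) (huv : u * v % 4 = 3) {d : ℤ}
    (hd : d ∣ 3 * v * R * (4 * u * ((v : ℤ) - 2 * u))) :
    QSol ℚ_[2] (3 * v * R + 4 * u * ((v : ℤ) - 2 * u)) (3 * v * R * (4 * u * ((v : ℤ) - 2 * u))) d := by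
  classical
  have hd0 : d ≠ 0 := by
    rintro rfl
    exact D.b1_ne (zero_dvd_iff.mp hd)
  have hdK : (d : ℚ_[2]) ≠ 0 := by exact_mod_cast hd0
  have G := D.good1 (K := ℚ_[2])
  rw [qsol_iff G hd hdK]
  set H := (alpha G).range with hH
  have pt : ∀ (x y : ℤ), x ≠ 0 → y ^ 2 = x ^ 3 + (3 * v * R + 4 * u * ((v : ℤ) - 2 * u)) * x ^ 2
      + 3 * v * R * (4 * u * ((v : ℤ) - 2 * u)) * x → InH H (x : ℚ_[2]) := by
    intro x y hx h
    refine ⟨by exact_mod_cast hx, mem_of_point G (y := (y : ℚ_[2])) _ ?_⟩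
    exact_mod_cast congrArg (fun t : ℤ => (t : ℚ_[2])) h
  obtain ⟨p1, p2, p3, p4, p5, p6⟩ := D.pos
  -- the four points
  have x1 : InH H ((-(3 * v * R) : ℤ) : ℚ_[2]) := pt _ 0 (neg_ne_zero.mpr D.hA) (by ring)
  have x2 : InH H ((-(4 * u * ((v : ℤ) - 2 * u)) : ℤ) : ℚ_[2]) :=
    pt _ 0 (neg_ne_zero.mpr D.hB) (by ring)
  have x3 : InH H ((-16 * u * v : ℤ) : ℚ_[2]) := by
    refine pt _ (8 * u * v * Q) (by
      have : (0 : ℤ) < 16 * u * v := by positivity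
      intro h; linarith) ?_
    rw [D.cR, D.cQ]; ring
  have x4 : InH H ((-6 * u * v : ℤ) : ℚ_[2]) := by
    refine pt _ (6 * u * v * P) (by
      have : (0 : ℤ) < 6 * u * v := by positivity
      intro h; linarith) ?_
    rw [D.cR, D.cP]; ring
  -- residues modulo eight
  have u2 := (mod6 D.pu D.u3).1
  have v2 := (mod6 D.pv D.v3).1
  have uu : ((u : ℤ) * u) % 8 = 1 := by
    have : (u : ℤ) % 8 = 1 ∨ (u : ℤ) % 8 = 3 ∨ (u : ℤ) % 8 = 5 ∨ (u : ℤ) % 8 = 7 := by omega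
    rcases this with h | h | h | h <;> rw [Int.mul_emod, h] <;> norm_num
  have vv : ((v : ℤ) * v) % 8 = 1 := by
    have : (v : ℤ) % 8 = 1 ∨ (v : ℤ) % 8 = 3 ∨ (v : ℤ) % 8 = 5 ∨ (v : ℤ) % 8 = 7 := by omega
    rcases this with h | h | h | h <;> rw [Int.mul_emod, h] <;> norm_num
  have huv' : ((u : ℤ) * v) % 4 = 3 := by exact_mod_cast huv
  have c1 : InH H ((-1 : ℤ) : ℚ_[2]) := by
    apply x1.of_mod
    have : (-(3 * (v : ℤ) * R)) * -1 = 3 * (v * v) + 18 * (u * v) := by rw [D.cR]; ring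
    rw [this]
    generalize (u : ℤ) * v = X at *
    generalize (v : ℤ) * v = Y at *
    omega
  have s16 : InH H ((-(u * v) : ℤ) : ℚ_[2]) := by
    refine x3.of_sq (t := 4 * u * v) ?_ ?_
    · have : (0 : ℤ) < u * v := by positivity
      have h0 : (-(u * v) : ℤ) ≠ 0 := by omega
      exact_mod_cast h0
    · push_cast; ring
  have s4 : InH H ((-(u * ((v : ℤ) - 2 * u)) : ℤ) : ℚ_[2]) := by
    refine x2.of_sq (t := 2 * u * (v - 2 * u)) ?_ ?_
    · have h0 : (-(u * ((v : ℤ) - 2 * u)) : ℤ) ≠ 0 :=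
        neg_ne_zero.mpr (mul_ne_zero p1.ne' D.prime_w.ne_zero)
      exact_mod_cast h0
    · push_cast; ring
  have c3 : InH H ((3 : ℤ) : ℚ_[2]) := by
    have : ((u : ℤ) * v) % 8 = 3 ∨ ((u : ℤ) * v) % 8 = 7 := by omega
    rcases this with h | h
    · have h3 : InH H ((-3 : ℤ) : ℚ_[2]) := by
        apply s16.of_mod
        have : (-((u : ℤ) * v)) * -3 = 3 * (u * v) := by ring
        rw [this]; omega
      have := h3.mul c1
      have e : (((-3 : ℤ) : ℚ_[2])) * ((-1 : ℤ) : ℚ_[2]) = ((3 : ℤ) : ℚ_[2]) := by norm_num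
      rwa [e] at this
    · apply s4.of_mod
      have : (-((u : ℤ) * ((v : ℤ) - 2 * u))) * 3 = -3 * (u * v) + 6 * (u * u) := by ring
      rw [this]; omega
  have c6 : InH H ((6 : ℤ) : ℚ_[2]) := by
    have := x4.mul s16
    refine this.of_sq (t := 6 * u * v) (by norm_num) ?_
    push_cast; ring
  have c2 : InH H ((2 : ℤ) : ℚ_[2]) := by
    refine (c6.mul c3).of_sq (t := 6) (by norm_num) ?_
    norm_num
  have f1 : ((-1 : ℤ) : ℚ_[2]) = -1 := by norm_num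
  have f2 : ((2 : ℤ) : ℚ_[2]) = 2 := by norm_num
  have f3 : ((3 : ℤ) : ℚ_[2]) = 3 := by norm_num
  rw [f1] at c1
  rw [f2] at c2
  rw [f3] at c3
  exact two_all H c1.2 c2.2 c3.2 hdK

end Fam

end Pool.Agent.ShF
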