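import Pool.Agent.H23.Count
import Pool.Agent.H23.Symb

namespace Pool.Agent.ShF

open Pool.Agent.H23 WeierstrassCurve WeierstrassCurve.Affine

private theorem half_card {X : Type*} [Fintype X] [DecidableEq X] (f : X → ℤ)
    (hf : ∀ x, f x = 1 ∨ f x = -1) (σ : X → X) (hσ : ∀ x, σ (σ x) = x)
    (hfσ : ∀ x, f (σ x) = -f x) :
    2 * (Finset.univ.filter (fun x => f x = 1)).card = Fintype.card X := by
  have h1 : (Finset.univ.filter (fun x => ¬ f x = 1)).card =
      (Finset.univ.filter (fun x => f x = 1)).card := by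
    apply Finset.card_bij (fun x _ => σ x)
    · intro x hx
      rw [Finset.mem_filter] at hx ⊢
      refine ⟨Finset.mem_univ _, ?_⟩
      rw [hfσ, (hf x).resolve_left hx.2, neg_neg]
    · intro x _ y _ hxy
      rw [← hσ x, hxy, hσ y]
    · intro y hy
      rw [Finset.mem_filter] at hy
      refine ⟨σ y, ?_, hσ y⟩
      rw [Finset.mem_filter]
      refine ⟨Finset.mem_univ _, ?_⟩
      rw [hfσ, hy.2]
      norm_num
  have h2 := Finset.card_filter_add_card_filter_not (s := (Finset.univ : Finset X))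
    (fun x => f x = 1)
  rw [Finset.card_univ, h1] at h2
  omega

/-- Flip one element of a finite set. -/
private def halfFlip {n : ℕ} (i : Fin n) (S : Finset (Fin n)) : Finset (Fin n) :=
  if i ∈ S then S.erase i else insert i S

private theorem halfFlip_flip {n : ℕ} (i : Fin n) (S : Finset (Fin n)) :
    halfFlip i (halfFlip i S) = S := by
  unfold halfFlip
  by_cases h : i ∈ S
  · rw [if_pos h, if_neg (Finset.notMem_erase i S), Finset.insert_erase h]
  · rw [if_neg h, if_pos (Finset.mem_insert_self i S), Finset.erase_insert h]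

private theorem halfFlip_prod {n : ℕ} (s : Fin n → ℤ) {i : Fin n} (hi : s i = -1)
    (S : Finset (Fin n)) : ∏ j ∈ halfFlip i S, s j = -∏ j ∈ S, s j := by
  unfold halfFlip
  by_cases h : i ∈ S
  · rw [if_pos h, ← Finset.mul_prod_erase S s h, hi]
    ring
  · rw [if_neg h, Finset.prod_insert h, hi]
    ring

private theorem half_prod_pm {n : ℕ} (s : Fin n → ℤ) (hs : ∀ i, s i = 1 ∨ s i = -1)
    (S : Finset (Fin n)) : ∏ j ∈ S, s j = 1 ∨ ∏ j ∈ S, s j = -1 := by
  induction S using Finset.induction_on with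
  | empty => left; simp
  | insert a S ha ih =>
    rw [Finset.prod_insert ha]
    rcases hs a with h | h <;> rcases ih with h' | h' <;> rw [h, h'] <;> norm_num

theorem card_half_pair {n : ℕ} (s : Fin n → ℤ) (hs : ∀ i, s i = 1 ∨ s i = -1) (c : ℤ)
    (hc : c = 1 ∨ c = -1) (h0 : c = -1 ∨ ∃ i, s i = -1) :
    (Finset.univ.filter (fun x : Finset (Fin n) × Bool =>
      (if x.2 then c else 1) * ∏ i ∈ x.1, s i = 1)).card = 2 ^ n := by
  have hf : ∀ x : Finset (Fin n) × Bool, (if x.2 then c else 1) * ∏ i ∈ x.1, s i = 1 ∨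
      (if x.2 then c else 1) * ∏ i ∈ x.1, s i = -1 := by
    rintro ⟨S, e⟩
    rcases half_prod_pm s hs S with h | h <;> cases e <;> rcases hc with h' | h' <;>
      simp [h, h']
  have hcard : Fintype.card (Finset (Fin n) × Bool) = 2 * 2 ^ n := by
    rw [Fintype.card_prod, Fintype.card_finset, Fintype.card_fin, Fintype.card_bool, mul_comm]
  by_cases h : ∃ i, s i = -1
  · obtain ⟨i, hi⟩ := h
    have h1 := half_card (fun x : Finset (Fin n) × Bool => (if x.2 then c else 1) *
      ∏ i ∈ x.1, s i) hf (fun x => (halfFlip i x.1, x.2))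
      (fun x => by rw [halfFlip_flip]) (fun x => by
        show (if x.2 then c else 1) * ∏ j ∈ halfFlip i x.1, s j = _
        rw [halfFlip_prod s hi]
        ring)
    rw [hcard] at h1
    omega
  · have hc1 : c = -1 := h0.resolve_right h
    have h1 := half_card (fun x : Finset (Fin n) × Bool => (if x.2 then c else 1) *
      ∏ i ∈ x.1, s i) hf (fun x => (x.1, !x.2))
      (fun x => by simp) (fun x => by
        show (if (!x.2) then c else 1) * ∏ j ∈ x.1, s j = _
        rcases x with ⟨S, e⟩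
        cases e <;> simp [hc1])
    rw [hcard] at h1
    omega

theorem card_half {n : ℕ} (s : Fin (n + 1) → ℤ) (hs : ∀ i, s i = 1 ∨ s i = -1)
    (h0 : ∃ i, s i = -1) :
    (Finset.univ.filter (fun S : Finset (Fin (n + 1)) => ∏ i ∈ S, s i = 1)).card = 2 ^ n := by
  obtain ⟨i, hi⟩ := h0
  have h1 := half_card (fun S : Finset (Fin (n + 1)) => ∏ i ∈ S, s i) (half_prod_pm s hs)
    (halfFlip i) (halfFlip_flip i) (halfFlip_prod s hi)
  rw [Fintype.card_finset, Fintype.card_fin, pow_succ] at h1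
  omega

/-- A squarefree divisor of `b` is `±` a product of some of the distinct primes `P i`. -/
theorem exists_subset {n : ℕ} (P : Fin n → ℕ) (hP : ∀ i, (P i).Prime)
    {b d : ℤ} (hb : b ≠ 0) (hdb : d ∣ b)
    (hbP : ∀ q : ℕ, q.Prime → (q : ℤ) ∣ b → ∃ i, q = P i) (hd : Squarefree d) :
    ∃ (S : Finset (Fin n)) (e : Bool), d = sg e * ∏ i ∈ S, (P i : ℤ) := by
  classical
  have hsq : Squarefree d.natAbs := Int.squarefree_natAbs.mpr hd
  have h1 : ∀ q ∈ d.natAbs.primeFactors, ∃ i, q = P i := by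
    intro q hq
    have hqp := Nat.prime_of_mem_primeFactors hq
    have hqd := Nat.dvd_of_mem_primeFactors hq
    apply hbP q hqp
    exact (Int.natCast_dvd.mpr hqd).trans hdb
  choose j hj using h1
  set S : Finset (Fin n) := d.natAbs.primeFactors.attach.image (fun q => j q.1 q.2) with hS
  have hprod : ∏ i ∈ S, P i = d.natAbs := by
    rw [hS, Finset.prod_image]
    · have h2 : ∏ x ∈ d.natAbs.primeFactors.attach, P (j x.1 x.2) =
          ∏ x ∈ d.natAbs.primeFactors.attach, (x : ℕ) :=
        Finset.prod_congr rfl (fun x _ => (hj x.1 x.2).symm)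
      rw [h2, Finset.prod_attach d.natAbs.primeFactors (fun x => x),
        Nat.prod_primeFactors_of_squarefree hsq]
    · intro x _ y _ hxy
      apply Subtype.ext
      rw [hj x.1 x.2, hj y.1 y.2]
      exact congrArg P hxy
  have hprod' : ∏ i ∈ S, (P i : ℤ) = (d.natAbs : ℤ) := by
    rw [← hprod]
    push_cast
    rfl
  rcases Int.natAbs_eq d with h | h
  · refine ⟨S, false, ?_⟩
    rw [hprod', sg_false, one_mul]
    exact h
  · refine ⟨S, true, ?_⟩
    rw [hprod', sg_true, neg_one_mul]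
    exact h

private theorem half_sq_nat {n : ℕ} (P : Fin n → ℕ) (hP : ∀ i, (P i).Prime)
    (hinj : Function.Injective P) (S : Finset (Fin n)) : Squarefree (∏ i ∈ S, P i) := by
  induction S using Finset.induction_on with
  | empty => simp
  | insert a S ha ih =>
    rw [Finset.prod_insert ha, Nat.squarefree_mul_iff]
    refine ⟨?_, (hP a).prime.squarefree, ih⟩
    apply Nat.Coprime.prod_right
    intro i hi
    rw [Nat.coprime_primes (hP a) (hP i)]
    intro h
    exact ha (hinj h ▸ hi)

private theorem half_natAbs {n : ℕ} (P : Fin n → ℕ) (S : Finset (Fin n)) (e : Bool) :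
    (sg e * ∏ i ∈ S, (P i : ℤ)).natAbs = ∏ i ∈ S, P i := by
  rw [Int.natAbs_mul]
  have h1 : (sg e).natAbs = 1 := by cases e <;> rfl
  have h2 : (∏ i ∈ S, (P i : ℤ)) = ((∏ i ∈ S, P i : ℕ) : ℤ) := by push_cast; rfl
  rw [h1, h2, Int.natAbs_natCast, one_mul]

theorem squarefree_prod {n : ℕ} (P : Fin n → ℕ) (hP : ∀ i, (P i).Prime)
    (hinj : Function.Injective P) (S : Finset (Fin n)) (e : Bool) :
    Squarefree (sg e * ∏ i ∈ S, (P i : ℤ)) := by
  rw [← Int.squarefree_natAbs, half_natAbs]
  exact half_sq_nat P hP hinj S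

theorem prod_inj {n : ℕ} (P : Fin n → ℕ) (hP : ∀ i, (P i).Prime)
    (hinj : Function.Injective P) {S T : Finset (Fin n)} {e f : Bool}
    (h : sg e * ∏ i ∈ S, (P i : ℤ) = sg f * ∏ i ∈ T, (P i : ℤ)) : S = T ∧ e = f := by
  have h1 : ∏ i ∈ S, P i = ∏ i ∈ T, P i := by
    rw [← half_natAbs P S e, ← half_natAbs P T f, h]
  have key : ∀ {S T : Finset (Fin n)}, ∏ i ∈ S, P i = ∏ i ∈ T, P i → S ⊆ T := by
    intro S T hST i hi
    have h2 : P i ∣ ∏ i ∈ T, P i := by
      rw [← hST]
      exact Finset.dvd_prod_of_mem P hi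
    rw [Prime.dvd_finsetProd_iff (hP i).prime] at h2
    obtain ⟨k, hk, hk2⟩ := h2
    rw [Nat.prime_dvd_prime_iff_eq (hP i) (hP k)] at hk2
    rw [hinj hk2]
    exact hk
  refine ⟨Finset.Subset.antisymm (key h1) (key h1.symm), ?_⟩
  have h2 : (∏ i ∈ S, (P i : ℤ)) = ∏ i ∈ T, (P i : ℤ) := by exact_mod_cast h1
  rw [h2] at h
  have h3 : (∏ i ∈ T, (P i : ℤ)) ≠ 0 := by
    rw [Finset.prod_ne_zero_iff]
    intro i _
    exact_mod_cast (hP i).ne_zero
  exact sg_inj (mul_right_cancel₀ h3 h)

theorem leg_prod {p : ℕ} [Fact p.Prime] {n : ℕ} (P : Fin n → ℕ) (S : Finset (Fin n)) (e : Bool) :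
    legendreSym p (sg e * ∏ i ∈ S, (P i : ℤ)) =
      (if e then legendreSym p (-1) else 1) * ∏ i ∈ S, legendreSym p (P i) := by
  rw [legendreSym.mul]
  have h1 : legendreSym p (sg e) = if e then legendreSym p (-1) else 1 := by
    cases e
    · simp [legendreSym.at_one]
    · simp
  have h2 : legendreSym p (∏ i ∈ S, (P i : ℤ)) = ∏ i ∈ S, legendreSym p (P i) := by
    induction S using Finset.induction_on with
    | empty => simp [legendreSym.at_one]
    | insert a S ha ih => rw [Finset.prod_insert ha, Finset.prod_insert ha, legendreSym.mul, ih]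
  rw [h1, h2]

end Pool.Agent.ShF
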