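import Pool.Agent.H23.Count
import Pool.Agent.H23.Symb

/-!
# A local condition at a prime of multiplicative reduction of the isogenous curve
-/

namespace Pool.Agent.ShF

open Pool.Agent.H23 WeierstrassCurve WeierstrassCurve.Affine

theorem node_aux {p : ℕ} [Fact p.Prime] {a b d d' : ℤ} (hd1 : legendreSym p d = -1)
    (hbd : b = d * d') (hd : (p : ℤ) ∣ a ^ 2 - 4 * b) {N M e : ℤ_[p]} (h2 : (2 : ZMod p) ≠ 0)
    (h : N ^ 2 = (d : ℤ_[p]) * M ^ 4 + (a : ℤ_[p]) * M ^ 2 * e ^ 2 + (d' : ℤ_[p]) * e ^ 4) :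
    (2 * d : ZMod p) * PadicInt.toZMod M ^ 2 + a * PadicInt.toZMod e ^ 2 = 0 := by
  have e0 : ((a ^ 2 - 4 * b : ℤ) : ZMod p) = 0 := by rwa [ZMod.intCast_zmod_eq_zero_iff_dvd]
  have e1 := congrArg (PadicInt.toZMod : ℤ_[p] →+* ZMod p) h
  simp only [map_mul, map_pow, map_add, toZMod_intCast] at e1
  have e2 : ((2 * d : ZMod p) * PadicInt.toZMod M ^ 2 + a * PadicInt.toZMod e ^ 2) ^ 2 -
      (d : ZMod p) * (2 * PadicInt.toZMod N) ^ 2 = 0 := by
    rw [hbd] at e0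
    push_cast at e0
    linear_combination (-4 * (d : ZMod p)) * e1 + (PadicInt.toZMod e : ZMod p) ^ 4 * e0
  exact (legendreSym.eq_zero_mod_of_eq_neg_one hd1 e2).1

theorem cond_node {p : ℕ} [Fact p.Prime] (hp2 : p ≠ 2) {a b d : ℤ} (hdb : d ∣ b)
    (hb : ¬ (p : ℤ) ∣ b) (hd : (p : ℤ) ∣ a ^ 2 - 4 * b) (h : QSol ℚ_[p] a b d) :
    legendreSym p d = 1 ∨ legendreSym p (-2 * a * d) = 1 := by
  have hpp : p.Prime := Fact.out
  have hpz : Prime (p : ℤ) := Nat.prime_iff_prime_int.mp hpp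
  have hpd : ¬ (p : ℤ) ∣ d := fun h => hb (h.trans hdb)
  have hd0 : (d : ZMod p) ≠ 0 := by
    rwa [Ne, ZMod.intCast_zmod_eq_zero_iff_dvd]
  rcases legendreSym.eq_one_or_neg_one p hd0 with h1 | h1
  · exact Or.inl h1
  right
  have h2 : (2 : ZMod p) ≠ 0 := by
    intro h
    have : ((2 : ℕ) : ZMod p) = 0 := by exact_mod_cast h
    rw [ZMod.natCast_eq_zero_iff] at this
    exact hp2 ((Nat.prime_dvd_prime_iff_eq hpp Nat.prime_two).mp this)
  have h2z : ¬ (p : ℤ) ∣ 2 := by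
    intro h
    apply h2
    have := (ZMod.intCast_zmod_eq_zero_iff_dvd 2 p).2 h
    exact_mod_cast this
  have hpa : ¬ (p : ℤ) ∣ a := by
    intro h3
    have h4 : (p : ℤ) ∣ 4 * b := by
      have h5 : 4 * b = a ^ 2 - (a ^ 2 - 4 * b) := by ring
      rw [h5]
      exact dvd_sub (dvd_pow h3 two_ne_zero) hd
    rcases hpz.dvd_or_dvd h4 with h5 | h5
    · have h6 : (p : ℤ) ∣ 2 * 2 := by norm_num; exact h5
      rcases hpz.dvd_or_dvd h6 with h7 | h7
      · exact h2z h7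
      · exact h2z h7
    · exact hb h5
  have ha0 : (a : ZMod p) ≠ 0 := by
    rwa [Ne, ZMod.intCast_zmod_eq_zero_iff_dvd]
  have hn0 : ((-2 * a * d : ℤ) : ZMod p) ≠ 0 := by
    push_cast
    exact mul_ne_zero (mul_ne_zero (neg_ne_zero.2 h2) ha0) hd0
  have hbd : b = d * (b / d) := (Int.mul_ediv_cancel' hdb).symm
  rw [legendreSym.eq_one_iff p hn0]
  push_cast
  rcases qsol_norm h with ⟨N, e, h3⟩ | ⟨N, M, h3⟩
  · have h4 := node_aux h1 hbd hd (N := N) (M := 1) (e := e) h2 (by rw [h3]; ring)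
    rw [map_one] at h4
    refine ⟨a * PadicInt.toZMod e, ?_⟩
    linear_combination (-(a : ZMod p)) * h4
  · have h4 := node_aux h1 hbd hd (N := N) (M := M) (e := 1) h2 (by rw [h3]; ring)
    rw [map_one] at h4
    refine ⟨2 * d * PadicInt.toZMod M, ?_⟩
    linear_combination (-2 * (d : ZMod p)) * h4

end Pool.Agent.ShF
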