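import Pool.Agent.ShF.Tab
import Pool.Agent.ShF.NODE
import Pool.Agent.ShF.HALF

/-!
# The family: the second model has rank two
-/

namespace Pool.Agent.ShF

open Pool.Agent.H23

namespace Fam

variable {u v R T P Q : ℕ}

theorem cR (D : Fam u v R T P Q) : (R : ℤ) = v + 6 * u := by rw [D.eR]; push_cast; ring
theorem cP (D : Fam u v R T P Q) : (P : ℤ) = v + 4 * u := by rw [D.eP]; push_cast; ring
theorem cQ (D : Fam u v R T P Q) : (Q : ℤ) = 2 * u + 3 * v := by rw [D.eQ]; push_cast; ring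

/-- `A - B = P Q`. -/
theorem AB (D : Fam u v R T P Q) :
    3 * (v : ℤ) * R - 4 * u * ((v : ℤ) - 2 * u) = P * Q := by
  rw [D.cR, D.cP, D.cQ]; ring

theorem prime_w (D : Fam u v R T P Q) : Prime ((v : ℤ) - 2 * u) := by
  rw [Int.prime_iff_natAbs_prime, ← D.eT]; exact D.pT

theorem ndvd_w (D : Fam u v R T P Q) {n : ℕ} (hn : n.Prime) (h : n ≠ T) :
    ¬ (n : ℤ) ∣ (v : ℤ) - 2 * u := by
  intro h'
  rcases D.w_cases with e | e
  · rw [e] at h'; exact ndvd_of_ne D.pT hn h h'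
  · rw [e, dvd_neg] at h'; exact ndvd_of_ne D.pT hn h h'

theorem pos (D : Fam u v R T P Q) : (0 : ℤ) < u ∧ (0 : ℤ) < v ∧ (0 : ℤ) < R ∧ (0 : ℤ) < P ∧
    (0 : ℤ) < Q ∧ (0 : ℤ) < T := by
  refine ⟨?_, ?_, ?_, ?_, ?_, ?_⟩
  · exact_mod_cast D.pu.pos
  · exact_mod_cast D.pv.pos
  · exact_mod_cast D.pR.pos
  · exact_mod_cast D.pP.pos
  · exact_mod_cast D.pQ.pos
  · exact_mod_cast D.pT.pos

/-! ### The second model -/

theorem b2_ne (D : Fam u v R T P Q) : 3 * (v : ℤ) * R * (P * Q) ≠ 0 := by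
  obtain ⟨h1, h2, h3, h4, h5, -⟩ := D.pos
  positivity

theorem disc2 (D : Fam u v R T P Q) :
    (4 * u * ((v : ℤ) - 2 * u) - 2 * (3 * v * R)) ^ 2 - 4 * (3 * (v : ℤ) * R * (P * Q)) =
      (4 * u * ((v : ℤ) - 2 * u)) ^ 2 := by
  rw [← D.AB]; ring

theorem disc2_ne (D : Fam u v R T P Q) :
    (4 * u * ((v : ℤ) - 2 * u) - 2 * (3 * v * R)) ^ 2 - 4 * (3 * (v : ℤ) * R * (P * Q)) ≠ 0 := by
  rw [D.disc2]
  apply pow_ne_zero
  have := D.prime_w.ne_zero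
  have := D.pos.1
  positivity

theorem glob_of {a b d c N : ℤ} (hsq : Squarefree d) (hb : b = d * c) (h : N ^ 2 = d + a + c) :
    d ∈ Glob a b := by
  refine ⟨hsq, ⟨c, hb⟩, N, 1, 1, Or.inl one_ne_zero, ?_⟩
  rw [hb, Int.mul_ediv_cancel_left _ hsq.ne_zero]
  have : ((N ^ 2 : ℤ) : ℚ) = ((d + a + c : ℤ) : ℚ) := by rw [h]
  push_cast at this
  rw [this]; ring

theorem sqf_two {m n : ℕ} (hm : m.Prime) (hn : n.Prime) (h : m ≠ n) :
    Squarefree ((m : ℤ) * n) := by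
  have h1 : Squarefree (m * n) := by
    rw [Nat.squarefree_mul ((Nat.coprime_primes hm hn).mpr h)]
    exact ⟨hm.prime.squarefree, hn.prime.squarefree⟩
  have := Int.squarefree_natCast.mpr h1
  exact_mod_cast this

theorem sqf_three {l m n : ℕ} (hl : l.Prime) (hm : m.Prime) (hn : n.Prime) (h1 : l ≠ m)
    (h2 : l ≠ n) (h3 : m ≠ n) : Squarefree ((l : ℤ) * m * n) := by
  have h1 : Squarefree (l * m * n) := by
    rw [Nat.squarefree_mul, Nat.squarefree_mul ((Nat.coprime_primes hl hm).mpr h1)]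
    · exact ⟨⟨hl.prime.squarefree, hm.prime.squarefree⟩, hn.prime.squarefree⟩
    · exact Nat.Coprime.mul_left ((Nat.coprime_primes hl hn).mpr h2)
        ((Nat.coprime_primes hm hn).mpr h3)
  have := Int.squarefree_natCast.mpr h1
  exact_mod_cast this

/-- Rational points on the second model. -/
theorem glob2 (D : Fam u v R T P Q) :
    (3 * v * P : ℤ) ∈ Glob (4 * u * ((v : ℤ) - 2 * u) - 2 * (3 * v * R)) (3 * v * R * (P * Q)) ∧
    (v * Q : ℤ) ∈ Glob (4 * u * ((v : ℤ) - 2 * u) - 2 * (3 * v * R)) (3 * v * R * (P * Q)) ∧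
    (3 * v * R : ℤ) ∈ Glob (4 * u * ((v : ℤ) - 2 * u) - 2 * (3 * v * R)) (3 * v * R * (P * Q)) ∧
    (P * Q : ℤ) ∈ Glob (4 * u * ((v : ℤ) - 2 * u) - 2 * (3 * v * R)) (3 * v * R * (P * Q)) := by
  obtain ⟨⟨h1, h2, h3, h4, h5⟩, ⟨h6, h7, h8, h9⟩, ⟨h10, h11, h12⟩, ⟨h13, h14⟩, h15⟩ := D.distinct
  have v3 := D.v3
  have R3 := D.R_gt
  have P3 := D.P_gt
  refine ⟨?_, ?_, ?_, ?_⟩
  · apply glob_of (c := R * Q) (N := 2 * u)
    · exact_mod_cast sqf_three Nat.prime_three D.pv D.pP (by omega) (by omega) h8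
    · ring
    · rw [D.cR, D.cP, D.cQ]; ring
  · apply glob_of (c := 3 * R * P) (N := 8 * u)
    · exact sqf_two D.pv D.pQ h9
    · ring
    · rw [D.cR, D.cP, D.cQ]; ring
  · apply glob_of (c := P * Q) (N := 0)
    · exact_mod_cast sqf_three Nat.prime_three D.pv D.pR (by omega) (by omega) h6
    · ring
    · rw [D.cR, D.cP, D.cQ]; ring
  · apply glob_of (c := 3 * v * R) (N := 0)
    · exact sqf_two D.pP D.pQ h15
    · ring
    · rw [D.cR, D.cP, D.cQ]; ring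

theorem prime_dvd_iff {q m : ℕ} (hq : q.Prime) (hm : m.Prime) : (q : ℤ) ∣ (m : ℤ) ↔ q = m := by
  constructor
  · intro h
    exact (Nat.prime_dvd_prime_iff_eq hq hm).mp (by exact_mod_cast h)
  · rintro rfl; exact dvd_rfl

theorem card_glob2 (D : Fam u v R T P Q) :
    2 ^ 4 ≤ (Glob (4 * u * ((v : ℤ) - 2 * u) - 2 * (3 * v * R)) (3 * v * R * (P * Q))).ncard := by
  obtain ⟨⟨h1, h2, h3, h4, h5⟩, ⟨h6, h7, h8, h9⟩, ⟨h10, h11, h12⟩, ⟨h13, h14⟩, h15⟩ := D.distinct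
  have G := good_int D.b2_ne D.disc2_ne
  have v3 := D.v3
  have R3 := D.R_gt
  have P3 := D.P_gt
  have Q3 := D.Q_gt
  obtain ⟨g1, g2, g3, g4⟩ := D.glob2
  obtain ⟨e1, he1, k1⟩ := glob_xor G g1 g2
  obtain ⟨e2, he2, k2⟩ := glob_xor G he1 g4
  obtain ⟨e3, he3, k3⟩ := glob_xor G g1 he2
  obtain ⟨e4, he4, k4⟩ := glob_xor G g3 he2
  have z : ∀ {n : ℕ}, n.Prime → Prime (n : ℤ) := fun h => Nat.prime_iff_prime_int.mp h
  have z3 : Prime (3 : ℤ) := by exact_mod_cast z Nat.prime_three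
  -- divisibility table for natural primes
  have d3 : ∀ {q : ℕ}, q.Prime → ((q : ℤ) ∣ 3 * v * P ↔ (q = 3 ∨ q = v) ∨ q = P) := by
    intro q hq
    rw [(z hq).dvd_mul, (z hq).dvd_mul, prime_dvd_iff hq D.pv, prime_dvd_iff hq D.pP]
    rw [show (3 : ℤ) = ((3 : ℕ) : ℤ) by norm_num, prime_dvd_iff hq Nat.prime_three]
  have dR : ∀ {q : ℕ}, q.Prime → ((q : ℤ) ∣ 3 * v * R ↔ (q = 3 ∨ q = v) ∨ q = R) := by
    intro q hq
    rw [(z hq).dvd_mul, (z hq).dvd_mul, prime_dvd_iff hq D.pv, prime_dvd_iff hq D.pR]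
    rw [show (3 : ℤ) = ((3 : ℕ) : ℤ) by norm_num, prime_dvd_iff hq Nat.prime_three]
  have dQ : ∀ {q : ℕ}, q.Prime → ((q : ℤ) ∣ v * Q ↔ q = v ∨ q = Q) := by
    intro q hq
    rw [(z hq).dvd_mul, prime_dvd_iff hq D.pv, prime_dvd_iff hq D.pQ]
  have dP : ∀ {q : ℕ}, q.Prime → ((q : ℤ) ∣ P * Q ↔ q = P ∨ q = Q) := by
    intro q hq
    rw [(z hq).dvd_mul, prime_dvd_iff hq D.pP, prime_dvd_iff hq D.pQ]
  have c1 : ∀ {q : ℕ}, q.Prime → ((q : ℤ) ∣ e1 ↔ q = 3 ∨ q = P ∨ q = Q) := by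
    intro q hq
    rw [k1 _ (z hq), d3 hq, dQ hq]
    have : q = 3 ∨ q ≠ 3 := by omega
    constructor
    · intro h
      by_contra hh
      apply h
      constructor <;> intro h' <;> omega
    · intro h h'
      omega
  have c2 : ∀ {q : ℕ}, q.Prime → ((q : ℤ) ∣ e2 ↔ q = 3) := by
    intro q hq
    rw [k2 _ (z hq), c1 hq, dP hq]
    omega
  have c3 : ∀ {q : ℕ}, q.Prime → ((q : ℤ) ∣ e3 ↔ q = v ∨ q = P) := by
    intro q hq
    rw [k3 _ (z hq), d3 hq, c2 hq]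
    omega
  have c4 : ∀ {q : ℕ}, q.Prime → ((q : ℤ) ∣ e4 ↔ q = v ∨ q = R) := by
    intro q hq
    rw [k4 _ (z hq), dR hq, c2 hq]
    omega
  refine le_card_glob D.b2_ne D.disc2_ne ![3, (R : ℤ), P, Q] ?_ ![e2, e4, e3, (v : ℤ) * Q] ?_ ?_
  · intro i
    fin_cases i
    · exact z3
    · exact z D.pR
    · exact z D.pP
    · exact z D.pQ
  · intro i
    fin_cases i
    · exact he2
    · exact he4
    · exact he3
    · exact g2
  · have c3' : ∀ x : ℤ, (3 : ℤ) ∣ x ↔ ((3 : ℕ) : ℤ) ∣ x := fun x => by norm_num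
    intro i j
    fin_cases i <;> fin_cases j <;>
      simp only [Fin.mk_zero, Fin.zero_eta, Fin.isValue, Matrix.cons_val_zero, Fin.mk_one,
        Matrix.cons_val_one, Fin.reduceFinMk, Matrix.cons_val, Fin.reduceEq, iff_true, iff_false,
        c3', c2 Nat.prime_three, c2 D.pR, c2 D.pP, c2 D.pQ, c3 Nat.prime_three, c3 D.pR, c3 D.pP,
        c3 D.pQ, c4 Nat.prime_three, c4 D.pR, c4 D.pP, c4 D.pQ, dQ Nat.prime_three, dQ D.pR,
        dQ D.pP, dQ D.pQ] <;> first | omega | simp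

end Fam

end Pool.Agent.ShF
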