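import Pool.Agent.ShF.E2

/-!
# The family: upper bounds for the Selmer groups of the second model
-/

namespace Pool.Agent.ShF

open Pool.Agent.H23

theorem unit_sg {d : ℤ} (h : d ∣ 1) : ∃ e : Bool, d = sg e := by
  rcases Int.isUnit_iff.mp (isUnit_of_dvd_one h) with h | h
  · exact ⟨false, h⟩
  · exact ⟨true, h⟩

theorem forall5 {C : ℕ → Prop} {a b c d e : ℕ} (ha : C a) (hb : C b) (hc : C c) (hd : C d)
    (he : C e) : ∀ i, C (![a, b, c, d, e] i) := by
  intro i
  fin_cases i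
  · exact ha
  · exact hb
  · exact hc
  · exact hd
  · exact he

namespace Fam

variable {u v R T P Q : ℕ}

/-- Elements of the Selmer group of the second model are positive. -/
theorem sel2_pos (D : Fam u v R T P Q) {d : ℤ}
    (hd : d ∈ Sel (4 * u * ((v : ℤ) - 2 * u) - 2 * (3 * v * R)) (3 * v * R * (P * Q))) :
    0 < d := by
  obtain ⟨hsq, hdb, ⟨N, M, e, h0, h1⟩, -⟩ := hd
  by_contra hneg
  have hd0 := hsq.ne_zero
  have hlt : d < 0 := by omega
  obtain ⟨p1, p2, p3, p4, p5, p6⟩ := D.pos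
  obtain ⟨c, hc⟩ := hdb
  have hb : (0 : ℤ) < 3 * v * R * (P * Q) := by positivity
  have hcneg : c < 0 := by
    by_contra hh
    push Not at hh
    have : d * c ≤ 0 := mul_nonpos_of_nonpos_of_nonneg hlt.le hh
    rw [← hc] at this
    omega
  have ha : 4 * u * ((v : ℤ) - 2 * u) - 2 * (3 * v * R) ≤ 0 := by
    rw [D.cR]
    nlinarith [mul_pos p1 p2, mul_pos p1 p1, mul_pos p2 p2]
  rw [hc, Int.mul_ediv_cancel_left _ hd0] at h1
  have ha' : ((4 * u * ((v : ℤ) - 2 * u) - 2 * (3 * v * R) : ℤ) : ℝ) ≤ 0 := by exact_mod_cast ha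
  have hd' : (d : ℝ) < 0 := by exact_mod_cast hlt
  have hc' : (c : ℝ) < 0 := by exact_mod_cast hcneg
  have q1 : 0 ≤ M ^ 4 := by positivity
  have q2 : 0 ≤ M ^ 2 * e ^ 2 := by positivity
  have q3 : 0 ≤ e ^ 4 := by positivity
  have q4 : 0 ≤ N ^ 2 := sq_nonneg N
  have r1 : (d : ℝ) * M ^ 4 ≤ 0 := mul_nonpos_of_nonpos_of_nonneg hd'.le q1
  have r2 : ((4 * u * ((v : ℤ) - 2 * u) - 2 * (3 * v * R) : ℤ) : ℝ) * (M ^ 2 * e ^ 2) ≤ 0 :=
    mul_nonpos_of_nonpos_of_nonneg ha' q2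
  have r3 : (c : ℝ) * e ^ 4 ≤ 0 := mul_nonpos_of_nonpos_of_nonneg hc'.le q3
  rw [mul_assoc ((4 * u * ((v : ℤ) - 2 * u) - 2 * (3 * v * R) : ℤ) : ℝ)] at h1
  have s1 : (d : ℝ) * M ^ 4 = 0 := by linarith
  have s3 : (c : ℝ) * e ^ 4 = 0 := by linarith
  have t1 : M = 0 := by
    rcases mul_eq_zero.mp s1 with h | h
    · exact absurd h hd'.ne
    · exact pow_eq_zero_iff (by norm_num) |>.mp h
  have t3 : e = 0 := by
    rcases mul_eq_zero.mp s3 with h | h
    · exact absurd h hc'.ne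
    · exact pow_eq_zero_iff (by norm_num) |>.mp h
  rcases h0 with h | h
  · exact h t1
  · exact h t3

/-- The condition at a prime dividing `B` with `A` a square. -/
theorem sel2_chi {A B d : ℤ} {p : ℕ} [hp : Fact p.Prime] (hp2 : p ≠ 2) (hB : (p : ℤ) ∣ B)
    (hA : ¬ (p : ℤ) ∣ A) (hAs : legendreSym p A = 1) (hd : d ∈ Sel (B - 2 * A) (A * (A - B))) :
    legendreSym p d = 1 := by
  have hpz := Nat.prime_iff_prime_int.mp hp.1
  have h2 : ¬ (p : ℤ) ∣ 2 := by
    intro h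
    have : p ∣ 2 := by exact_mod_cast h
    exact hp2 ((Nat.prime_dvd_prime_iff_eq hp.1 Nat.prime_two).mp this)
  have h1 : ¬ (p : ℤ) ∣ A * (A - B) := by
    intro h
    rcases hpz.dvd_or_dvd h with h | h
    · exact hA h
    · exact hA (by simpa using dvd_add h hB)
  have h3 : (p : ℤ) ∣ (B - 2 * A) ^ 2 - 4 * (A * (A - B)) := by
    have : (B - 2 * A) ^ 2 - 4 * (A * (A - B)) = B * B := by ring
    rw [this]; exact hB.mul_right _
  rcases cond_node hp2 hd.2.1 h1 h3 (hd.2.2.2 p) with h | h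
  · exact h
  · obtain ⟨k, hk⟩ := hB
    have e : legendreSym p (-2 * (B - 2 * A) * d) = legendreSym p (2 * 2 * (A * d)) := by
      rw [legendreSym.mod p (-2 * (B - 2 * A) * d), legendreSym.mod p (2 * 2 * (A * d))]
      congr 1
      apply Int.ModEq.symm
      rw [Int.modEq_iff_dvd]
      exact ⟨-2 * k * d, by rw [hk]; ring⟩
    have h20 : ((2 : ℤ) : ZMod p) ≠ 0 := by
      rw [Ne, ZMod.intCast_zmod_eq_zero_iff_dvd]; exact h2
    have e2 : legendreSym p 2 * legendreSym p 2 = 1 := by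
      have := legendreSym.sq_one p h20
      rw [pow_two] at this; exact this
    rw [e, legendreSym.mul, legendreSym.mul, legendreSym.mul, hAs, one_mul, e2, one_mul] at h
    exact h

theorem chi_A_u [Fact u.Prime] (D : Fam u v R T P Q) (h : bh u = false) :
    legendreSym u (3 * v * R) = 1 := by
  have hh := chi_bh D.u3
  obtain ⟨y, hy⟩ := chi_exists (P := u) (ndvd_of_ne D.pv D.pu D.ne_uv)
  have hR := (D.sym_u hy).2.2.2
  have := chi_mul (chi_mul hh hy) hR
  rw [this, h]; simp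

theorem chi_A_T [Fact T.Prime] (D : Fam u v R T P Q) (h : bh T = false) :
    legendreSym T (3 * v * R) = 1 := by
  have hh := chi_bh D.T_gt
  have ht := chi_bt D.T_gt
  obtain ⟨⟨h1, h2, h3, h4, h5⟩, -⟩ := D.distinct
  obtain ⟨s, hs⟩ := chi_exists (P := T) (ndvd_of_ne D.pu D.pT h3.symm)
  have hv := D.sym_T hs
  have hR : legendreSym T R = sg (bt T ^^ s) := by
    have h8 := (chi_consts (chi_bn D.T_gt) ht).2.2.2.2.2.2
    rcases D.w_cases with h | h
    · have := chi_cong (x := (R : ℤ)) (k := 8) (y := u) (m := 1)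
        (by rw [D.cR, one_mul, ← h]; ring) h8 hs
      simpa using this
    · have := chi_cong (x := (R : ℤ)) (k := 8) (y := u) (m := -1)
        (by rw [D.cR, neg_mul, one_mul, ← h]; ring) h8 hs
      simpa using this
  have := chi_mul (chi_mul hh hv) hR
  rw [this, h]
  generalize bt T = t
  cases t <;> cases s <;> rfl

theorem ndvd_A (D : Fam u v R T P Q) {n : ℕ} (hn : n.Prime) (h3 : 3 < n) (h1 : n ≠ v)
    (h2 : n ≠ R) : ¬ (n : ℤ) ∣ 3 * v * R :=
  ndvd_mul' hn (ndvd_mul' hn (ndvd_three' (by omega)) (ndvd_of_ne D.pv hn h1))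
    (ndvd_of_ne D.pR hn h2)

/-- A prime divisor of `b2`. -/
theorem b2_primes (D : Fam u v R T P Q) (q : ℕ) (hq : q.Prime)
    (h : (q : ℤ) ∣ 3 * v * R * (P * Q)) : ∃ i, q = ![3, v, R, P, Q] i := by
  have z := Nat.prime_iff_prime_int.mp hq
  rw [z.dvd_mul, z.dvd_mul, z.dvd_mul, z.dvd_mul, prime_dvd_iff hq D.pv, prime_dvd_iff hq D.pR,
    prime_dvd_iff hq D.pP, prime_dvd_iff hq D.pQ, show (3 : ℤ) = ((3 : ℕ) : ℤ) by norm_num,
    prime_dvd_iff hq Nat.prime_three] at h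
  rcases h with ((h | h) | h) | (h | h)
  · exact ⟨0, h⟩
  · exact ⟨1, h⟩
  · exact ⟨2, h⟩
  · exact ⟨3, h⟩
  · exact ⟨4, h⟩

/-- The upper bound for the Selmer group of the second model. -/
theorem card_sel2 (D : Fam u v R T P Q) {x : Bool} [hv : Fact v.Prime]
    (hx : legendreSym v u = sg x) (hc : (u % 12, v % 24, x) ∈ clsList) :
    (Sel (4 * u * ((v : ℤ) - 2 * u) - 2 * (3 * v * R)) (3 * v * R * (P * Q))).ncard ≤ 2 ^ 4 := by
  classical
  have hu : Fact u.Prime := ⟨D.pu⟩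
  have hT : Fact T.Prime := ⟨D.pT⟩
  obtain ⟨⟨h1, h2, h3, h4, h5⟩, ⟨h6, h7, h8, h9⟩, ⟨h10, h11, h12⟩, ⟨h13, h14⟩, h15⟩ := D.distinct
  have u3 := D.u3
  have v3 := D.v3
  have R3 := D.R_gt
  have P3 := D.P_gt
  have Q3 := D.Q_gt
  have T3 := D.T_gt
  have hprimes : ∀ i, (![3, v, R, P, Q] i).Prime := by
    intro i
    fin_cases i
    · exact Nat.prime_three
    · exact D.pv
    · exact D.pR
    · exact D.pP
    · exact D.pQ
  -- a prime with a nontrivial condition
  have key : ∃ (p : ℕ) (hp : Fact p.Prime), (∀ i, ¬ (p : ℤ) ∣ (![3, v, R, P, Q] i : ℕ)) ∧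
      legendreSym p v = -1 ∧
      ∀ d ∈ Sel (4 * u * ((v : ℤ) - 2 * u) - 2 * (3 * v * R)) (3 * v * R * (P * Q)),
        legendreSym p d = 1 := by
    obtain ⟨τ, hτ⟩ : ∃ τ, (v : ℤ) - 2 * u = sg τ * T := by
      rcases D.w_cases with h | h
      · exact ⟨false, by rw [h]; simp⟩
      · exact ⟨true, by rw [h]; simp⟩
    have ht := table3 _ hc τ
    simp only at ht
    have hTr := D.residue_T hτ
    have hyx := chi_recip (p := u) (q := v) D.u3 D.v3 hx
    have hsT := D.sym_recip_T hx hτ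
    rw [bn_mod12 u, bn_mod v] at hyx
    rw [bn_mod12 u, bn_mod v, bn_mod T, hTr] at hsT
    rcases ht with ⟨k1, k2⟩ | ⟨k1, k2⟩
    · refine ⟨u, hu, ?_, ?_, ?_⟩
      · exact forall5 (C := fun n => ¬ (u : ℤ) ∣ (n : ℕ))
          (ndvd_of_ne Nat.prime_three D.pu (by omega))
          (ndvd_of_ne D.pv D.pu (by omega)) (ndvd_of_ne D.pR D.pu (by omega))
          (ndvd_of_ne D.pP D.pu (by omega)) (ndvd_of_ne D.pQ D.pu (by omega))
      · rw [hyx, k2]; rfl
      · intro d hd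
        rw [← bh_mod12] at k1
        refine sel2_chi (A := 3 * v * R) (B := 4 * u * ((v : ℤ) - 2 * u)) (by omega) ?_ ?_
          (D.chi_A_u k1) ?_
        · exact ⟨4 * ((v : ℤ) - 2 * u), by ring⟩
        · exact D.ndvd_A D.pu u3 h1 h2
        · rw [D.AB]; exact hd
    · refine ⟨T, hT, ?_, ?_, ?_⟩
      · exact forall5 (C := fun n => ¬ (T : ℤ) ∣ (n : ℕ))
          (ndvd_of_ne Nat.prime_three D.pT (by omega))
          (ndvd_of_ne D.pv D.pT (by omega)) (ndvd_of_ne D.pR D.pT (by omega))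
          (ndvd_of_ne D.pP D.pT (by omega)) (ndvd_of_ne D.pQ D.pT (by omega))
      · rw [D.sym_T hsT, bt_mod T, hTr]
        rw [k2]; rfl
      · intro d hd
        rw [← hTr, ← bh_mod] at k1
        refine sel2_chi (A := 3 * v * R) (B := 4 * u * ((v : ℤ) - 2 * u)) (by omega) ?_ ?_
          (D.chi_A_T k1) ?_
        · rw [hτ]; exact ⟨4 * u * sg τ, by ring⟩
        · exact D.ndvd_A D.pT T3 h7.symm h10.symm
        · rw [D.AB]; exact hd
  obtain ⟨p, hp, hnd, hv1, hall⟩ := key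
  set Pr : Fin 5 → ℕ := ![3, v, R, P, Q] with hPr
  have hs : ∀ i, legendreSym p (Pr i) = 1 ∨ legendreSym p (Pr i) = -1 := by
    intro i
    apply legendreSym.eq_one_or_neg_one
    rw [Ne, ZMod.intCast_zmod_eq_zero_iff_dvd]; exact hnd i
  have hcard := card_half (n := 4) (fun i => legendreSym p (Pr i)) hs ⟨1, by simpa [hPr] using hv1⟩
  rw [← hcard]
  have hsub : Sel (4 * u * ((v : ℤ) - 2 * u) - 2 * (3 * v * R)) (3 * v * R * (P * Q)) ⊆
      ((Finset.univ.filter (fun S : Finset (Fin 5) => ∏ i ∈ S, legendreSym p (Pr i) = 1)).image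
        (fun S => ∏ i ∈ S, (Pr i : ℤ)) : Finset ℤ) := by
    intro d hd
    obtain ⟨S, e, hSe⟩ := exists_subset Pr hprimes D.b2_ne hd.2.1 D.b2_primes hd.1
    have hpos := D.sel2_pos hd
    have he : e = false := by
      cases e
      · rfl
      · exfalso
        have : (0 : ℤ) < ∏ i ∈ S, (Pr i : ℤ) :=
          Finset.prod_pos fun i _ => by exact_mod_cast (hprimes i).pos
        rw [hSe, sg_true] at hpos
        linarith
    subst he
    have hchi := hall d hd
    rw [hSe, leg_prod] at hchi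
    simp only [Bool.false_eq_true, if_false, one_mul] at hchi
    rw [Finset.coe_image]
    refine ⟨S, ?_, ?_⟩
    · simpa using hchi
    · rw [hSe]; simp
  calc _ ≤ _ := Set.ncard_le_ncard hsub (Finset.finite_toSet _)
    _ = _ := Set.ncard_coe_finset _
    _ ≤ _ := Finset.card_image_le

end Fam

end Pool.Agent.ShF
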