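import Pool.Agent.H23.Count
import Pool.Agent.H23.Symb

namespace Pool.Agent.ShF

open Pool.Agent.H23 WeierstrassCurve WeierstrassCurve.Affine

section shift

variable {K : Type*} [Field K]

private theorem shift_eqn {a b a' b' t : K} (ha : a' = a + 3 * t) (hb : b' = t * (2 * t + a))
    (ht : t ^ 2 + a * t + b = 0) {x y : K} (h : y ^ 2 = x ^ 3 + a * x ^ 2 + b * x) :
    y ^ 2 = (x - t) ^ 3 + a' * (x - t) ^ 2 + b' * (x - t) := by
  rw [h, ha, hb]
  linear_combination x * ht

/-- The shift `(x, y) ↦ (x - t, y)`. -/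
private def shiftMap {a b a' b' t : K} (G : Good a b) (G' : Good a' b') (ha : a' = a + 3 * t)
    (hb : b' = t * (2 * t + a)) (ht : t ^ 2 + a * t + b = 0) :
    (EC a b).toAffine.Point → (EC a' b').toAffine.Point
  | 0 => 0
  | Point.some x y h => mkP G' (x - t) y
      (shift_eqn ha hb ht ((ec_nonsingular G.h2 G.hb G.hd).mp h))

private theorem shift_zero {a b a' b' t : K} (G : Good a b) (G' : Good a' b')
    (ha : a' = a + 3 * t) (hb : b' = t * (2 * t + a)) (ht : t ^ 2 + a * t + b = 0) :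
    shiftMap G G' ha hb ht 0 = 0 := rfl

private theorem shift_mk {a b a' b' t : K} (G : Good a b) (G' : Good a' b')
    (ha : a' = a + 3 * t) (hb : b' = t * (2 * t + a)) (ht : t ^ 2 + a * t + b = 0)
    {x y : K} (h : y ^ 2 = x ^ 3 + a * x ^ 2 + b * x) :
    shiftMap G G' ha hb ht (mkP G x y h) = mkP G' (x - t) y (shift_eqn ha hb ht h) := rfl

variable [DecidableEq K]

private theorem shift_neg {a b a' b' t : K} (G : Good a b) (G' : Good a' b')
    (ha : a' = a + 3 * t) (hb : b' = t * (2 * t + a)) (ht : t ^ 2 + a * t + b = 0) (P) :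
    shiftMap G G' ha hb ht (-P) = -shiftMap G G' ha hb ht P := by
  rcases point_cases G P with rfl | ⟨x, y, h, rfl⟩
  · simp [shift_zero]
  · rw [neg_mkP, shift_mk, shift_mk, neg_mkP]

private theorem shift_add {a b a' b' t : K} (G : Good a b) (G' : Good a' b')
    (ha : a' = a + 3 * t) (hb : b' = t * (2 * t + a)) (ht : t ^ 2 + a * t + b = 0) (P Q) :
    shiftMap G G' ha hb ht (P + Q) = shiftMap G G' ha hb ht P + shiftMap G G' ha hb ht Q := by
  refine additive_of G _ (shift_zero G G' ha hb ht) (shift_neg G G' ha hb ht) ?_ P Q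
  intro x₁ x₂ x₃ y₁ y₂ y₃ h₁ h₂ h₃ h
  obtain ⟨l, n, e1, e2, e3, hy1, hy2, hy3⟩ := mk_line_of_add G h₁ h₂ h₃ h
  rw [shift_mk, shift_mk, shift_mk]
  apply mk_add_of_line G' (l := l) (n := n + l * t)
  · rw [ha]; linear_combination e1
  · rw [hb]; linear_combination e2 - 2 * t * e1 + ht
  · rw [hy1]; ring
  · rw [hy2]; ring
  · rw [hy3]; ring

private theorem shift_shift {a b a' b' t : K} (G : Good a b) (G' : Good a' b')
    (ha : a' = a + 3 * t) (hb : b' = t * (2 * t + a)) (ht : t ^ 2 + a * t + b = 0)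
    {s : K} (hs : s = -t) (ha' : a = a' + 3 * s) (hb' : b = s * (2 * s + a'))
    (ht' : s ^ 2 + a' * s + b' = 0) (P) :
    shiftMap G' G ha' hb' ht' (shiftMap G G' ha hb ht P) = P := by
  rcases point_cases G P with rfl | ⟨x, y, h, rfl⟩
  · rfl
  · rw [shift_mk, shift_mk, mkP_inj]
    exact ⟨by rw [hs]; ring, rfl⟩

/-- The shift as an isomorphism. -/
private def shiftEquiv {a b a' b' t : K} (G : Good a b) (G' : Good a' b') (ha : a' = a + 3 * t)
    (hb : b' = t * (2 * t + a)) (ht : t ^ 2 + a * t + b = 0) :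
    (EC a b).toAffine.Point ≃+ (EC a' b').toAffine.Point where
  toFun := shiftMap G G' ha hb ht
  invFun := shiftMap (t := -t) G' G (by rw [ha]; ring)
    (by rw [ha]; linear_combination ht) (by rw [ha, hb]; ring)
  left_inv := fun P => shift_shift G G' ha hb ht rfl _ _ _ P
  right_inv := fun P => shift_shift G' G _ _ _ (by ring) ha hb ht P
  map_add' := shift_add G G' ha hb ht

end shift

theorem mwRank_shift {a b t : ℤ} (hb : b ≠ 0) (hd : a ^ 2 - 4 * b ≠ 0) (ht0 : t ≠ 0)
    (ht : t ^ 2 + a * t + b = 0) (h2 : 2 * t + a ≠ 0) :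
    mwRank (a + 3 * t) (t * (2 * t + a)) = mwRank a b := by
  have G := good_int hb hd
  have hd' : (a + 3 * t) ^ 2 - 4 * (t * (2 * t + a)) ≠ 0 := by
    have e : (a + 3 * t) ^ 2 - 4 * (t * (2 * t + a)) = (a + t) ^ 2 := by ring
    rw [e]
    apply pow_ne_zero
    intro h0
    apply hb
    linear_combination ht - t * h0
  have G' := good_int (a := a + 3 * t) (b := t * (2 * t + a)) (mul_ne_zero ht0 h2) hd'
  have e := shiftEquiv (t := (t : ℚ)) G G' (by push_cast; ring) (by push_cast; ring)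
    (by exact_mod_cast ht)
  have h3 := (AddEquiv.toIntLinearEquiv e).finrank_eq
  exact h3.symm

end Pool.Agent.ShF
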