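import Pool.Agent.ShF.E2b
import Pool.Agent.ShF.SHIFT

/-!
# The family: the dual Selmer group of the second model is trivial; the rank is two
-/

namespace Pool.Agent.ShF

open Pool.Agent.H23

/-- Symbols at three. -/
theorem chi3_one {n : ℤ} (h : n % 3 = 1) : legendreSym 3 n = sg false := by
  have : Fact (Nat.Prime 3) := ⟨Nat.prime_three⟩
  rw [legendreSym.mod 3 n, show ((3 : ℕ) : ℤ) = 3 by norm_num, h]
  exact legendreSym.at_one 3

theorem chi3_two {n : ℤ} (h : n % 3 = 2) : legendreSym 3 n = sg true := by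
  have : Fact (Nat.Prime 3) := ⟨Nat.prime_three⟩
  rw [legendreSym.mod 3 n, show ((3 : ℕ) : ℤ) = 3 by norm_num, h]
  exact chi_two_neg (P := 3) (Or.inl (by norm_num))

theorem chi3 {n : ℤ} (h : n % 3 ≠ 0) : legendreSym 3 n = sg (n % 3 == 2) := by
  have : n % 3 = 1 ∨ n % 3 = 2 := by omega
  rcases this with h | h
  · rw [chi3_one h, h]; rfl
  · rw [chi3_two h, h]; rfl

/-- The condition at a prime exactly dividing `b` on the dual side. -/
theorem dual_chi {a b d c : ℤ} {p : ℕ} [hp : Fact p.Prime] (hp2 : p ≠ 2)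
    (hb : b = p * c) (hc : ¬ (p : ℤ) ∣ c) (hd' : ¬ (p : ℤ) ∣ a ^ 2 - 4 * b)
    (hd : d ∈ Sel (-2 * a) (a ^ 2 - 4 * b)) : legendreSym p d = 1 := by
  have hpz := Nat.prime_iff_prime_int.mp hp.1
  have h2 : ¬ (p : ℤ) ∣ 2 := by
    intro h
    have : p ∣ 2 := by exact_mod_cast h
    exact hp2 ((Nat.prime_dvd_prime_iff_eq hp.1 Nat.prime_two).mp this)
  have e : (-2 * a) ^ 2 - 4 * (a ^ 2 - 4 * b) = p * (2 ^ 4 * c) := by rw [hb]; ring
  refine legendre_mult hp2 hd.2.1 ?_ ?_ hd' (hd.2.2.2 p)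
  · rw [e]; exact dvd_mul_right _ _
  · rw [e, pow_two]
    intro h
    have := (mul_dvd_mul_iff_left hpz.ne_zero).mp h
    exact ndvd_mul' hp.1 (ndvd_pow' hp.1 4 h2) hc this

namespace Fam

variable {u v R T P Q : ℕ}

theorem w_mod3 (D : Fam u v R T P Q) : ((v : ℤ) - 2 * u) % 3 ≠ 0 ∧
    (((v : ℤ) - 2 * u) % 3 == 2) = !(((u : ℤ)) % 3 == 2) := by
  have h1 := D.mod3
  have h2 := (mod6 D.pu D.u3).2
  have e1 : u % 3 = 1 ∨ u % 3 = 2 := by omega
  rcases e1 with e1 | e1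
  · have a1 : (u : ℤ) % 3 = 1 := by omega
    have a2 : ((v : ℤ) - 2 * u) % 3 = 2 := by omega
    rw [a1, a2]; decide
  · have a1 : (u : ℤ) % 3 = 2 := by omega
    have a2 : ((v : ℤ) - 2 * u) % 3 = 1 := by omega
    rw [a1, a2]; decide

/-- The dual Selmer group of the second model is trivial. -/
theorem sel2_dual (D : Fam u v R T P Q) {x : Bool} [hv : Fact v.Prime]
    (hx : legendreSym v u = sg x) (hc : (u % 12, v % 24, x) ∈ clsList) {d : ℤ}
    (hd : d ∈ Sel (-2 * (4 * u * ((v : ℤ) - 2 * u) - 2 * (3 * v * R)))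
      ((4 * u * ((v : ℤ) - 2 * u) - 2 * (3 * v * R)) ^ 2 - 4 * (3 * v * R * (P * Q)))) :
    d = 1 := by
  have hu : Fact u.Prime := ⟨D.pu⟩
  have hR : Fact R.Prime := ⟨D.pR⟩
  have hP : Fact P.Prime := ⟨D.pP⟩
  have hQ : Fact Q.Prime := ⟨D.pQ⟩
  have h3 : Fact (Nat.Prime 3) := ⟨Nat.prime_three⟩
  obtain ⟨⟨h1, h2, h3', h4, h5⟩, ⟨h6, h7, h8, h9⟩, ⟨h10, h11, h12⟩, ⟨h13, h14⟩, h15⟩ := D.distinct
  have u3 := D.u3
  have v3 := D.v3
  have R3 := D.R_gt
  have P3 := D.P_gt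
  have Q3 := D.Q_gt
  have T3 := D.T_gt
  have z : ∀ {n : ℕ}, n.Prime → Prime (n : ℤ) := fun h => Nat.prime_iff_prime_int.mp h
  have hB : ∀ {n : ℕ}, n.Prime → n ≠ 2 → n ≠ u → n ≠ T →
      ¬ (n : ℤ) ∣ (4 * u * ((v : ℤ) - 2 * u) - 2 * (3 * v * R)) ^ 2
        - 4 * (3 * v * R * (P * Q)) := by
    intro n hn n2 nu nT
    rw [D.disc2]
    apply ndvd_pow' hn
    apply ndvd_mul' hn (ndvd_mul' hn _ (ndvd_of_ne D.pu hn nu)) (D.ndvd_w hn nT)
    have : (4 : ℤ) = ((2 : ℕ) : ℤ) ^ 2 := by norm_num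
    rw [this]
    exact ndvd_pow' hn 2 (ndvd_of_ne Nat.prime_two hn n2)
  have three : (3 : ℤ) = ((3 : ℕ) : ℤ) := by norm_num
  -- the four conditions
  have q3 : legendreSym 3 d = 1 := by
    refine dual_chi (c := v * R * (P * Q)) (by norm_num) (by push_cast; ring) ?_
      (hB Nat.prime_three (by norm_num) (by omega) (by omega)) hd
    exact ndvd_mul' Nat.prime_three (ndvd_mul' Nat.prime_three
      (ndvd_of_ne D.pv Nat.prime_three (by omega)) (ndvd_of_ne D.pR Nat.prime_three (by omega)))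
      (ndvd_mul' Nat.prime_three (ndvd_of_ne D.pP Nat.prime_three (by omega))
        (ndvd_of_ne D.pQ Nat.prime_three (by omega)))
  have qv : legendreSym v d = 1 := by
    refine dual_chi (c := 3 * R * (P * Q)) (by omega) (by ring) ?_
      (hB D.pv (by omega) (by omega) (by omega)) hd
    exact ndvd_mul' D.pv (ndvd_mul' D.pv (ndvd_three' (by omega)) (ndvd_of_ne D.pR D.pv (by omega)))
      (ndvd_mul' D.pv (ndvd_of_ne D.pP D.pv (by omega)) (ndvd_of_ne D.pQ D.pv (by omega)))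
  have qR : legendreSym R d = 1 := by
    refine dual_chi (c := 3 * v * (P * Q)) (by omega) (by ring) ?_
      (hB D.pR (by omega) (by omega) (by omega)) hd
    exact ndvd_mul' D.pR (ndvd_mul' D.pR (ndvd_three' (by omega)) (ndvd_of_ne D.pv D.pR (by omega)))
      (ndvd_mul' D.pR (ndvd_of_ne D.pP D.pR (by omega)) (ndvd_of_ne D.pQ D.pR (by omega)))
  have qP : legendreSym P d = 1 := by
    refine dual_chi (c := 3 * v * R * Q) (by omega) (by ring) ?_
      (hB D.pP (by omega) (by omega) (by omega)) hd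
    exact ndvd_mul' D.pP (ndvd_mul' D.pP (ndvd_mul' D.pP (ndvd_three' (by omega))
      (ndvd_of_ne D.pv D.pP (by omega))) (ndvd_of_ne D.pR D.pP (by omega)))
      (ndvd_of_ne D.pQ D.pP (by omega))
  -- the shape of `d`
  obtain ⟨hsq, hdb, -⟩ := hd
  have hdb' : d ∣ 2 * (u * (((v : ℤ) - 2 * u) * 1)) := by
    apply squarefree_dvd_of_primes hsq
    intro q hq hqd
    have h := hqd.trans hdb
    rw [D.disc2] at h
    have h' := hq.dvd_of_dvd_pow h
    have h4' : (4 : ℤ) * u * ((v : ℤ) - 2 * u) = 2 * (2 * (u * (((v : ℤ) - 2 * u) * 1))) := by ring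
    rw [h4'] at h'
    rcases hq.dvd_or_dvd h' with h | h
    · exact h.mul_right _
    · exact h
  obtain ⟨i, d1, rfl, k1, s1⟩ := peel hsq Int.prime_two hdb'
  obtain ⟨j, d2, rfl, k2, s2⟩ := peel s1 (z D.pu) k1
  obtain ⟨k, d3, rfl, k3, s3⟩ := peel s2 D.prime_w k2
  obtain ⟨e, rfl⟩ := unit_sg k3
  -- evaluate
  have hS3u : legendreSym 3 (u : ℤ) = sg ((u : ℤ) % 3 == 2) := by
    apply chi3
    have := (mod6 D.pu D.u3).2
    omega
  have hS3w := chi3 D.w_mod3.1
  rw [D.w_mod3.2] at hS3w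
  have two3 : legendreSym 3 2 = sg true := chi3_two (by norm_num)
  have neg3 : legendreSym 3 (-1) = sg true := chi3_two (by norm_num)
  have gen : ∀ {p : ℕ} [Fact p.Prime] {n t s r : Bool}, legendreSym p (-1) = sg n →
      legendreSym p 2 = sg t → legendreSym p u = sg s →
      legendreSym p ((v : ℤ) - 2 * u) = sg r →
      legendreSym p (pw i 2 * (pw j u * (pw k ((v : ℤ) - 2 * u) * sg e))) = 1 →
      ((e && n) ^^ (i && t) ^^ (j && s) ^^ (k && r)) = false := by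
    intro p _ n t s r hn ht hs hr h
    have a1 := chi_pw ht i
    have a2 := chi_pw hs j
    have a3 := chi_pw hr k
    have a4 : legendreSym p (sg e) = sg (e && n) := by
      cases e
      · exact legendreSym.at_one p
      · simpa using hn
    have := chi_mul a1 (chi_mul a2 (chi_mul a3 a4))
    rw [this] at h
    have := sg_one h
    revert this
    generalize (e && n) = A1
    generalize (i && t) = A2
    generalize (j && s) = A3
    generalize (k && r) = A4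
    revert A1 A2 A3 A4
    decide
  obtain ⟨b1, b2, b3, b4⟩ := D.sym_recip hx
  obtain ⟨m1, m2, m3⟩ := D.residues
  have r1 := gen neg3 two3 hS3u hS3w q3
  have r2 := gen (chi_bn D.v3) (chi_bt D.v3) hx (D.sym_v hx).1 qv
  have r3 := gen (chi_bn D.R_gt) (chi_bt D.R_gt) b2 (D.sym_R b2).1 qR
  have r4 := gen (chi_bn D.P_gt) (chi_bt D.P_gt) b3 (D.sym_P b3).1 qP
  have ht := table2 _ hc e i j k
  simp only at ht
  rw [bn_mod v, bt_mod v] at r2
  rw [bn_mod R, bt_mod R, bn_mod12 u, bn_mod v, m1] at r3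
  rw [bn_mod P, bt_mod P, bh_mod P, bn_mod12 u, bn_mod v, m2] at r4
  have hκ : ((u : ℤ) % 3 == 2) = (u % 12 % 3 == 2) := by
    have e1 : u % 12 % 3 = u % 3 := Nat.mod_mod_of_dvd _ (by norm_num)
    rw [e1]
    have e2 : (u : ℤ) % 3 = ((u % 3 : ℕ) : ℤ) := by push_cast; rfl
    rw [e2]
    have : u % 3 < 3 := Nat.mod_lt _ (by norm_num)
    generalize u % 3 = m at *
    interval_cases m <;> rfl
  rw [hκ] at r1
  obtain ⟨f1, f2, f3, f4⟩ := ht (by simpa only [Bool.and_true] using r1) r2 r3 r4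
  subst f1; subst f2; subst f3; subst f4
  simp

/-- The second model has rank two. -/
theorem rank2 (D : Fam u v R T P Q) {x : Bool} [hv : Fact v.Prime]
    (hx : legendreSym v u = sg x) (hc : (u % 12, v % 24, x) ∈ clsList) :
    mwRank (4 * u * ((v : ℤ) - 2 * u) - 2 * (3 * v * R)) (3 * v * R * (P * Q)) = 2 := by
  have h := finish (k := 4) (l := 0) D.b2_ne D.disc2_ne D.card_glob2 (D.card_sel2 hx hc) ?_ ?_
  · omega
  · rw [pow_zero]
    have : (Glob (-2 * (4 * u * ((v : ℤ) - 2 * u) - 2 * (3 * v * R)))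
      ((4 * u * ((v : ℤ) - 2 * u) - 2 * (3 * v * R)) ^ 2 - 4 * (3 * v * R * (P * Q)))).Nonempty :=
      ⟨1, one_mem_glob _ _⟩
    exact (Set.ncard_pos (glob_finite _ _ D.disc2_ne)).mpr this
  · rw [pow_zero, Set.ncard_le_one (sel_finite _ _ D.disc2_ne)]
    intro a ha b hb
    rw [D.sel2_dual hx hc ha, D.sel2_dual hx hc hb]

/-- The first model has rank two. -/
theorem rank1 (D : Fam u v R T P Q) {x : Bool} [hv : Fact v.Prime]
    (hx : legendreSym v u = sg x) (hc : (u % 12, v % 24, x) ∈ clsList) :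
    mwRank (3 * v * R + 4 * u * ((v : ℤ) - 2 * u)) (3 * v * R * (4 * u * ((v : ℤ) - 2 * u))) = 2 := by
  rw [← D.rank2 hx hc]
  obtain ⟨p1, p2, p3, p4, p5, p6⟩ := D.pos
  have hw := D.prime_w.ne_zero
  have hA : (3 : ℤ) * v * R ≠ 0 := by positivity
  have hB : (4 : ℤ) * u * ((v : ℤ) - 2 * u) ≠ 0 := mul_ne_zero (by positivity) hw
  have hC : 3 * (v : ℤ) * R - 4 * u * ((v : ℤ) - 2 * u) ≠ 0 := by
    rw [D.AB]; positivity
  have h := mwRank_shift (a := 3 * v * R + 4 * u * ((v : ℤ) - 2 * u))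
    (b := 3 * v * R * (4 * u * ((v : ℤ) - 2 * u))) (t := -(3 * v * R)) (mul_ne_zero hA hB) ?_
    (neg_ne_zero.mpr hA) (by ring) ?_
  · rw [← h]
    congr 1
    · ring
    · rw [← D.AB]; ring
  · have : (3 * (v : ℤ) * R + 4 * u * ((v : ℤ) - 2 * u)) ^ 2
        - 4 * (3 * v * R * (4 * u * ((v : ℤ) - 2 * u))) =
        (3 * (v : ℤ) * R - 4 * u * ((v : ℤ) - 2 * u)) ^ 2 := by ring
    rw [this]
    exact pow_ne_zero _ hC
  · intro h0
    apply hC
    linear_combination -h0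

end Fam

end Pool.Agent.ShF
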