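import Pool.Agent.H23.Symb

/-!
# The family: arithmetic of the six primes
-/

namespace Pool.Agent.ShF

open Pool.Agent.H23

/-- The six primes `u, v, R = v + 6u, T = |v - 2u|, P = v + 4u, Q = 2u + 3v`. -/
structure Fam (u v R T P Q : ℕ) : Prop where
  pu : u.Prime
  pv : v.Prime
  pR : R.Prime
  pT : T.Prime
  pP : P.Prime
  pQ : Q.Prime
  u3 : 3 < u
  v3 : 3 < v
  eR : R = v + 6 * u
  eT : T = ((v : ℤ) - 2 * u).natAbs
  eP : P = v + 4 * u
  eQ : Q = 2 * u + 3 * v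

theorem mod6 {n : ℕ} (hn : n.Prime) (h3 : 3 < n) : n % 2 = 1 ∧ n % 3 ≠ 0 := by
  constructor
  · rcases hn.eq_two_or_odd with h | h
    · omega
    · exact h
  · intro h
    have : 3 ∣ n := Nat.dvd_of_mod_eq_zero h
    have := (Nat.prime_dvd_prime_iff_eq Nat.prime_three hn).mp this
    omega

theorem ndvd_of_ne {m n : ℕ} (hm : m.Prime) (hn : n.Prime) (h : n ≠ m) : ¬ (n : ℤ) ∣ (m : ℤ) := by
  intro h'
  exact h ((Nat.prime_dvd_prime_iff_eq hn hm).mp (by exact_mod_cast h'))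

theorem ndvd_mul' {n : ℕ} (hn : n.Prime) {x y : ℤ} (hx : ¬ (n : ℤ) ∣ x) (hy : ¬ (n : ℤ) ∣ y) :
    ¬ (n : ℤ) ∣ x * y := fun h =>
  ((Nat.prime_iff_prime_int.mp hn).dvd_or_dvd h).elim hx hy

theorem ndvd_pow' {n : ℕ} (hn : n.Prime) {x : ℤ} (k : ℕ) (hx : ¬ (n : ℤ) ∣ x) :
    ¬ (n : ℤ) ∣ x ^ k := fun h => hx ((Nat.prime_iff_prime_int.mp hn).dvd_of_dvd_pow h)

theorem ndvd_two' {n : ℕ} (h : 3 ≤ n) : ¬ (n : ℤ) ∣ 2 := by
  intro h'
  have := Nat.le_of_dvd (by norm_num) (show n ∣ 2 by exact_mod_cast h')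
  omega

theorem ndvd_three' {n : ℕ} (h : 4 ≤ n) : ¬ (n : ℤ) ∣ 3 := by
  intro h'
  have := Nat.le_of_dvd (by norm_num) (show n ∣ 3 by exact_mod_cast h')
  omega

namespace Fam

variable {u v R T P Q : ℕ}

theorem w_cases (D : Fam u v R T P Q) : ((v : ℤ) - 2 * u = T) ∨ ((v : ℤ) - 2 * u = -T) := by
  have := D.eT; omega

theorem ne_uv (D : Fam u v R T P Q) : u ≠ v := by
  rintro rfl
  have h7 : R = 7 * u := by have := D.eR; omega
  have := D.pR
  rw [h7] at this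
  exact Nat.not_prime_mul (by norm_num) (by have := D.u3; omega) this

theorem mod3 (D : Fam u v R T P Q) : u % 3 = v % 3 := by
  have hP : P % 3 ≠ 0 := (mod6 D.pP (by have := D.eP; have := D.u3; omega)).2
  have h1 := (mod6 D.pu D.u3).2
  have h2 := (mod6 D.pv D.v3).2
  have h3 := D.eP
  have e1 : u % 3 = 1 ∨ u % 3 = 2 := by omega
  have e2 : v % 3 = 1 ∨ v % 3 = 2 := by omega
  rcases e1 with e1 | e1 <;> rcases e2 with e2 | e2 <;> omega

theorem T_odd (D : Fam u v R T P Q) : T % 2 = 1 := by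
  have h2 := (mod6 D.pv D.v3).1
  have := D.eT
  omega

theorem T_gt (D : Fam u v R T P Q) : 3 < T := by
  have h1 := D.T_odd
  have h2 := D.pT.two_le
  have h3 : T % 3 ≠ 0 := by
    have h4 := D.mod3
    have h5 := (mod6 D.pu D.u3).2
    have h6 := D.eT
    have e1 : u % 3 = 1 ∨ u % 3 = 2 := by omega
    rcases e1 with e1 | e1 <;> omega
  omega

theorem R_gt (D : Fam u v R T P Q) : 3 < R := by have := D.eR; have := D.u3; omega
theorem P_gt (D : Fam u v R T P Q) : 3 < P := by have := D.eP; have := D.u3; omega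
theorem Q_gt (D : Fam u v R T P Q) : 3 < Q := by have := D.eQ; have := D.u3; omega

/-- The six primes are distinct. -/
theorem distinct (D : Fam u v R T P Q) :
    (u ≠ v ∧ u ≠ R ∧ u ≠ T ∧ u ≠ P ∧ u ≠ Q) ∧ (v ≠ R ∧ v ≠ T ∧ v ≠ P ∧ v ≠ Q) ∧
      (R ≠ T ∧ R ≠ P ∧ R ≠ Q) ∧ (T ≠ P ∧ T ≠ Q) ∧ P ≠ Q := by
  have h1 := D.ne_uv
  have h2 := D.eR
  have h3 := D.eT
  have h4 := D.eP
  have h5 := D.eQ
  have h6 := D.u3
  have h7 := D.v3
  have h8 : v ≠ 2 * u := by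
    intro h
    have := (mod6 D.pv D.v3).1
    omega
  have h9 : v ≠ 3 * u := by
    intro h
    have := (mod6 D.pv D.v3).2
    omega
  refine ⟨⟨h1, by omega, by omega, by omega, by omega⟩, ⟨by omega, by omega, by omega, by omega⟩,
    ⟨by omega, by omega, by omega⟩, ⟨by omega, by omega⟩, by omega⟩

end Fam

end Pool.Agent.ShF
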