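import Pool.Agent.ShF.Fam

/-!
# The family: Legendre symbols
-/

namespace Pool.Agent.ShF

open Pool.Agent.H23

section

variable {p : ℕ} [hp : Fact p.Prime]

theorem chi_mul {x y : ℤ} {a b : Bool} (h1 : legendreSym p x = sg a) (h2 : legendreSym p y = sg b) :
    legendreSym p (x * y) = sg (a ^^ b) := by
  rw [legendreSym.mul, h1, h2, sg_mul]

theorem chi_sg {x : ℤ} {a n : Bool} (hn : legendreSym p (-1) = sg n)
    (h : legendreSym p x = sg a) (e : Bool) : legendreSym p (sg e * x) = sg ((e && n) ^^ a) := by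
  cases e
  · simp only [sg_false, one_mul, Bool.false_and, Bool.false_xor]; exact h
  · simp only [sg_true, Bool.true_and]; exact chi_mul hn h

/-- `x ≡ k y` modulo `p`. -/
theorem chi_cong {x k y m : ℤ} {a b : Bool} (h : x = k * y + m * p)
    (hk : legendreSym p k = sg a) (hy : legendreSym p y = sg b) :
    legendreSym p x = sg (a ^^ b) := by
  have := chi_val (P := p) (c := 1) (L := x) (k := k) (v := y) (m := m) (x := false)
    (by rw [one_mul, h]) chi_one hk hy
  simpa using this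

theorem chi_three_cong {x k y m : ℤ} {h a b : Bool} (e : 3 * x = k * y + m * p)
    (h3 : legendreSym p 3 = sg h) (hk : legendreSym p k = sg a) (hy : legendreSym p y = sg b) :
    legendreSym p x = sg (h ^^ (a ^^ b)) :=
  chi_val (P := p) e h3 hk hy

theorem chi_consts {n t : Bool} (hn : legendreSym p (-1) = sg n) (ht : legendreSym p 2 = sg t) :
    legendreSym p (-2) = sg (n ^^ t) ∧ legendreSym p 4 = sg false ∧
      legendreSym p (-8) = sg (n ^^ t) ∧ legendreSym p (-16) = sg n ∧ legendreSym p 16 = sg false ∧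
      legendreSym p (-4) = sg n ∧ legendreSym p 8 = sg t := by
  have h4 : legendreSym p 4 = sg false := by
    have := chi_mul ht ht
    simpa using this
  have h16 : legendreSym p 16 = sg false := by
    have := chi_mul h4 h4
    simpa using this
  have h8 : legendreSym p 8 = sg t := by
    have := chi_mul h4 ht
    simpa using this
  refine ⟨by simpa using chi_mul hn ht, h4, by simpa using chi_mul hn h8,
    by simpa using chi_mul hn h16, h16, by simpa using chi_mul hn h4, h8⟩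

/-- bit of `(-1/p)`, `(2/p)`, `(3/p)` -/
def bn (n : ℕ) : Bool := n % 4 == 3
def bt (n : ℕ) : Bool := n % 8 == 3 || n % 8 == 5
def bh (n : ℕ) : Bool := n % 12 == 5 || n % 12 == 7

theorem chi_bn (h : 3 < p) : legendreSym p (-1) = sg (bn p) := by
  obtain ⟨h2, -⟩ := mod6 hp.1 h
  have : p % 4 = 1 ∨ p % 4 = 3 := by omega
  rcases this with h4 | h4
  · rw [chi_neg_one_pos h4, bn, h4]; rfl
  · rw [chi_neg_one_neg h4, bn, h4]; rfl

theorem chi_bt (h : 3 < p) : legendreSym p 2 = sg (bt p) := by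
  obtain ⟨h2, -⟩ := mod6 hp.1 h
  have : p % 8 = 1 ∨ p % 8 = 3 ∨ p % 8 = 5 ∨ p % 8 = 7 := by omega
  rcases this with h4 | h4 | h4 | h4
  · rw [chi_two_pos (Or.inl h4), bt, h4]; rfl
  · rw [chi_two_neg (Or.inl h4), bt, h4]; rfl
  · rw [chi_two_neg (Or.inr h4), bt, h4]; rfl
  · rw [chi_two_pos (Or.inr h4), bt, h4]; rfl

theorem chi_bh (h : 3 < p) : legendreSym p 3 = sg (bh p) := by
  obtain ⟨h2, h3⟩ := mod6 hp.1 h
  have : p % 12 = 1 ∨ p % 12 = 5 ∨ p % 12 = 7 ∨ p % 12 = 11 := by omega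
  rcases this with h4 | h4 | h4 | h4
  · rw [chi_three_pos (Or.inl h4), bh, h4]; rfl
  · rw [chi_three_neg (Or.inl h4), bh, h4]; rfl
  · rw [chi_three_neg (Or.inr h4), bh, h4]; rfl
  · rw [chi_three_pos (Or.inr h4), bh, h4]; rfl

variable {q : ℕ} [hq : Fact q.Prime]

theorem chi_recip (h : 3 < p) (h' : 3 < q) {s : Bool} (hs : legendreSym q p = sg s) :
    legendreSym p q = sg (s ^^ (bn p && bn q)) := by
  obtain ⟨h2, -⟩ := mod6 hp.1 h
  obtain ⟨h2', -⟩ := mod6 hq.1 h'
  have a1 : p % 4 = 1 ∨ p % 4 = 3 := by omega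
  have a2 : q % 4 = 1 ∨ q % 4 = 3 := by omega
  rcases a1 with a1 | a1
  · rw [recip_one a1 h2' hs, bn, a1]; simp
  · rcases a2 with a2 | a2
    · rw [recip_one' h2 a2 hs, bn, bn, a1, a2]; simp
    · rw [recip_three a1 a2 hs, bn, bn, a1, a2]; simp

end

namespace Fam

variable {u v R T P Q : ℕ}

/-- Symbols at `v`, in terms of `x = (u/v)`. -/
theorem sym_v [Fact v.Prime] (D : Fam u v R T P Q) {x : Bool} (hx : legendreSym v u = sg x) :
    legendreSym v ((v : ℤ) - 2 * u) = sg (bn v ^^ bt v ^^ x) ∧ legendreSym v P = sg x ∧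
      legendreSym v Q = sg (bt v ^^ x) ∧ legendreSym v R = sg (bt v ^^ bh v ^^ x) := by
  have hn := chi_bn D.v3
  have ht := chi_bt D.v3
  have hh := chi_bh D.v3
  obtain ⟨h1, h2, -⟩ := chi_consts hn ht
  refine ⟨?_, ?_, ?_, ?_⟩
  · have := chi_cong (x := (v : ℤ) - 2 * u) (k := -2) (y := u) (m := 1) (by ring) h1 hx
    simpa using this
  · have := chi_cong (x := (P : ℤ)) (k := 4) (y := u) (m := 1)
      (by rw [D.eP]; push_cast; ring) h2 hx
    simpa using this
  · have := chi_cong (x := (Q : ℤ)) (k := 2) (y := u) (m := 3)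
      (by rw [D.eQ]; push_cast; ring) ht hx
    simpa using this
  · have := chi_cong (x := (R : ℤ)) (k := 2 * 3) (y := u) (m := 1)
      (by rw [D.eR]; push_cast; ring) (chi_mul ht hh) hx
    simpa using this

/-- Symbols at `u`, in terms of `y = (v/u)`. -/
theorem sym_u [Fact u.Prime] (D : Fam u v R T P Q) {y : Bool} (hy : legendreSym u v = sg y) :
    legendreSym u ((v : ℤ) - 2 * u) = sg y ∧ legendreSym u P = sg y ∧
      legendreSym u Q = sg (bh u ^^ y) ∧ legendreSym u R = sg y := by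
  have hh := chi_bh D.u3
  refine ⟨?_, ?_, ?_, ?_⟩
  · have := chi_cong (x := (v : ℤ) - 2 * u) (k := 1) (y := v) (m := -2) (by ring) chi_one hy
    simpa using this
  · have := chi_cong (x := (P : ℤ)) (k := 1) (y := v) (m := 4)
      (by rw [D.eP]; push_cast; ring) chi_one hy
    simpa using this
  · have := chi_cong (x := (Q : ℤ)) (k := 3) (y := v) (m := 2)
      (by rw [D.eQ]; push_cast; ring) hh hy
    simpa using this
  · have := chi_cong (x := (R : ℤ)) (k := 1) (y := v) (m := 6)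
      (by rw [D.eR]; push_cast; ring) chi_one hy
    simpa using this

/-- Symbols at `R`, in terms of `s = (u/R)`. -/
theorem sym_R [Fact R.Prime] (D : Fam u v R T P Q) {s : Bool} (hs : legendreSym R u = sg s) :
    legendreSym R ((v : ℤ) - 2 * u) = sg (bn R ^^ bt R ^^ s) ∧
      legendreSym R P = sg (bn R ^^ bt R ^^ s) ∧
      legendreSym R Q = sg (bn R ^^ s) := by
  have hn := chi_bn D.R_gt
  have ht := chi_bt D.R_gt
  obtain ⟨h1, h2, h3, h4, -⟩ := chi_consts hn ht
  have e : (R : ℤ) = v + 6 * u := by rw [D.eR]; push_cast; ring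
  refine ⟨?_, ?_, ?_⟩
  · have := chi_cong (x := (v : ℤ) - 2 * u) (k := -8) (y := u) (m := 1) (by rw [e]; ring) h3 hs
    simpa using this
  · have := chi_cong (x := (P : ℤ)) (k := -2) (y := u) (m := 1)
      (by rw [e, D.eP]; push_cast; ring) h1 hs
    simpa using this
  · have := chi_cong (x := (Q : ℤ)) (k := -16) (y := u) (m := 3)
      (by rw [e, D.eQ]; push_cast; ring) h4 hs
    simpa using this

/-- Symbols at `P`, in terms of `s = (u/P)`. -/
theorem sym_P [Fact P.Prime] (D : Fam u v R T P Q) {s : Bool} (hs : legendreSym P u = sg s) :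
    legendreSym P ((v : ℤ) - 2 * u) = sg (bn P ^^ bt P ^^ bh P ^^ s) ∧
      legendreSym P v = sg (bn P ^^ s) ∧ legendreSym P R = sg (bt P ^^ s) := by
  have hn := chi_bn D.P_gt
  have ht := chi_bt D.P_gt
  have hh := chi_bh D.P_gt
  obtain ⟨h1, h2, h3, h4, h5, h6, h7⟩ := chi_consts hn ht
  have e : (P : ℤ) = v + 4 * u := by rw [D.eP]; push_cast; ring
  refine ⟨?_, ?_, ?_⟩
  · have := chi_cong (x := (v : ℤ) - 2 * u) (k := -2 * 3) (y := u) (m := 1) (by rw [e]; ring)
      (chi_mul h1 hh) hs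
    simpa using this
  · have := chi_cong (x := (v : ℤ)) (k := -4) (y := u) (m := 1) (by rw [e]; ring) h6 hs
    simpa using this
  · have := chi_cong (x := (R : ℤ)) (k := 2) (y := u) (m := 1)
      (by rw [e, D.eR]; push_cast; ring) ht hs
    simpa using this

/-- Symbols at `Q`, in terms of `s = (u/Q)`. -/
theorem sym_Q [Fact Q.Prime] (D : Fam u v R T P Q) {s : Bool} (hs : legendreSym Q u = sg s) :
    legendreSym Q ((v : ℤ) - 2 * u) = sg (bh Q ^^ (bn Q ^^ bt Q ^^ s)) ∧
      legendreSym Q v = sg (bh Q ^^ (bn Q ^^ bt Q ^^ s)) ∧ legendreSym Q R = sg (bh Q ^^ s) := by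
  have hn := chi_bn D.Q_gt
  have ht := chi_bt D.Q_gt
  have hh := chi_bh D.Q_gt
  obtain ⟨h1, h2, h3, h4, h5, h6, h7⟩ := chi_consts hn ht
  have e : (Q : ℤ) = 2 * u + 3 * v := by rw [D.eQ]; push_cast; ring
  refine ⟨?_, ?_, ?_⟩
  · have := chi_three_cong (x := (v : ℤ) - 2 * u) (k := -8) (y := u) (m := 1) (by rw [e]; ring)
      hh h3 hs
    simpa using this
  · have := chi_three_cong (x := (v : ℤ)) (k := -2) (y := u) (m := 1) (by rw [e]; ring) hh h1 hs
    simpa using this
  · have := chi_three_cong (x := (R : ℤ)) (k := 16) (y := u) (m := 1)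
      (by rw [e, D.eR]; push_cast; ring) hh h5 hs
    simpa using this

/-- Symbols at `T`, in terms of `s = (u/T)`. -/
theorem sym_T [Fact T.Prime] (D : Fam u v R T P Q) {s : Bool} (hs : legendreSym T u = sg s) :
    legendreSym T v = sg (bt T ^^ s) := by
  have ht := chi_bt D.T_gt
  rcases D.w_cases with h | h
  · have := chi_cong (x := (v : ℤ)) (k := 2) (y := u) (m := 1) (by rw [one_mul, ← h]; ring) ht hs
    simpa using this
  · have := chi_cong (x := (v : ℤ)) (k := 2) (y := u) (m := -1)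
      (by rw [neg_mul, one_mul, ← h]; ring) ht hs
    simpa using this

/-- The symbols `(u/l)` in terms of `x = (u/v)`. -/
theorem sym_recip [Fact u.Prime] [Fact v.Prime] [Fact R.Prime] [Fact P.Prime] [Fact Q.Prime]
    (D : Fam u v R T P Q) {x : Bool} (hx : legendreSym v u = sg x) :
    legendreSym u v = sg (x ^^ (bn u && bn v)) ∧
      legendreSym R u = sg ((x ^^ (bn u && bn v)) ^^ (bn R && bn u)) ∧
      legendreSym P u = sg ((x ^^ (bn u && bn v)) ^^ (bn P && bn u)) ∧
      legendreSym Q u = sg ((bh u ^^ (x ^^ (bn u && bn v))) ^^ (bn Q && bn u)) := by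
  have hy := chi_recip (p := u) (q := v) D.u3 D.v3 hx
  obtain ⟨h1, h2, h3, h4⟩ := D.sym_u hy
  refine ⟨hy, chi_recip D.R_gt D.u3 h4, chi_recip D.P_gt D.u3 h2, chi_recip D.Q_gt D.u3 h3⟩

/-- The symbol `(u/T)`; `τ` is the sign of `v - 2u`. -/
theorem sym_recip_T [Fact u.Prime] [Fact v.Prime] [Fact T.Prime]
    (D : Fam u v R T P Q) {x : Bool} (hx : legendreSym v u = sg x) {τ : Bool}
    (hτ : (v : ℤ) - 2 * u = sg τ * T) :
    legendreSym T u = sg (((τ && bn u) ^^ (x ^^ (bn u && bn v))) ^^ (bn T && bn u)) := by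
  have hy := chi_recip (p := u) (q := v) D.u3 D.v3 hx
  obtain ⟨h1, -⟩ := D.sym_u hy
  have hT : (T : ℤ) = sg τ * ((v : ℤ) - 2 * u) := by
    rw [hτ, ← mul_assoc, sg_mul]; simp
  have h2 : legendreSym u T = sg ((τ && bn u) ^^ (x ^^ (bn u && bn v))) := by
    rw [hT]; exact chi_sg (chi_bn D.u3) h1 τ
  exact chi_recip D.T_gt D.u3 h2

end Fam

end Pool.Agent.ShF
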