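import Pool.Agent.ShF.Sym

/-!
# The family: residue classes and tables
-/

namespace Pool.Agent.ShF

open Pool.Agent.H23

/-- The residue classes `(u mod 12, v mod 24)` with the bit of `(u/v)`. -/
def clsList : List (ℕ × ℕ × Bool) :=
  [(1, 7, true), (1, 19, true), (5, 11, true), (5, 23, false), (7, 1, true), (7, 13, false),
    (11, 5, true), (11, 17, true)]

theorem bn_mod (n : ℕ) : bn n = bn (n % 24) := by
  unfold bn; rw [Nat.mod_mod_of_dvd _ (by norm_num)]

theorem bt_mod (n : ℕ) : bt n = bt (n % 24) := by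
  unfold bt; rw [Nat.mod_mod_of_dvd _ (by norm_num)]

theorem bh_mod (n : ℕ) : bh n = bh (n % 24) := by
  unfold bh; rw [Nat.mod_mod_of_dvd _ (by norm_num)]

theorem bn_mod12 (n : ℕ) : bn n = bn (n % 12) := by
  unfold bn; rw [Nat.mod_mod_of_dvd _ (by norm_num)]

theorem bh_mod12 (n : ℕ) : bh n = bh (n % 12) := by
  unfold bh; rw [Nat.mod_mod_of_dvd _ (by norm_num)]

/-- Residues of `R, P, Q, T` modulo `24`. -/
theorem Fam.residues {u v R T P Q : ℕ} (D : Fam u v R T P Q) :
    R % 24 = (v % 24 + 6 * (u % 12)) % 24 ∧ P % 24 = (v % 24 + 4 * (u % 12)) % 24 ∧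
      Q % 24 = (2 * (u % 12) + 3 * (v % 24)) % 24 := by
  have h1 := D.eR
  have h2 := D.eP
  have h3 := D.eQ
  refine ⟨by omega, by omega, by omega⟩

theorem Fam.residue_T {u v R T P Q : ℕ} (D : Fam u v R T P Q) {τ : Bool}
    (hτ : (v : ℤ) - 2 * u = sg τ * T) :
    T % 24 = if τ then (2 * (u % 12) + 24 - v % 24) % 24 else (v % 24 + 24 - 2 * (u % 12)) % 24 := by
  cases τ
  · simp only [sg_false, one_mul] at hτ
    simp only [Bool.false_eq_true, if_false]
    omega
  · simp only [sg_true] at hτ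
    simp only [if_true]
    omega

/-- The system for the dual Selmer group of the second model. -/
theorem table2 : ∀ c ∈ clsList, ∀ e i j k : Bool,
    let U := c.1; let V := c.2.1; let x := c.2.2
    let y := x ^^ (bn U && bn V)
    let R := (V + 6 * U) % 24; let P := (V + 4 * U) % 24
    let sR := y ^^ (bn R && bn U); let sP := y ^^ (bn P && bn U)
    let κ := U % 3 == 2
    (e ^^ i ^^ (j && κ) ^^ (k && !κ)) = false →
    ((e && bn V) ^^ (i && bt V) ^^ (j && x) ^^ (k && (bn V ^^ bt V ^^ x))) = false →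
    ((e && bn R) ^^ (i && bt R) ^^ (j && sR) ^^ (k && (bn R ^^ bt R ^^ sR))) = false →
    ((e && bn P) ^^ (i && bt P) ^^ (j && sP) ^^ (k && (bn P ^^ bt P ^^ bh P ^^ sP))) = false →
    e = false ∧ i = false ∧ j = false ∧ k = false := by
  decide

/-- The system for the dual Selmer group of the first model. -/
theorem table1 : ∀ c ∈ clsList, ∀ e i j : Bool,
    let U := c.1; let V := c.2.1; let x := c.2.2
    let y := x ^^ (bn U && bn V)
    let R := (V + 6 * U) % 24
    let sR := y ^^ (bn R && bn U)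
    let κ := U % 3 == 2
    (e ^^ (i && !κ) ^^ (j && !κ)) = false →
    ((e && bn U) ^^ (i && y) ^^ (j && (bh U ^^ y))) = false →
    ((e && bn V) ^^ (i && x) ^^ (j && (bt V ^^ x))) = false →
    ((e && bn R) ^^ (i && (bn R ^^ bt R ^^ sR)) ^^ (j && (bn R ^^ sR))) = false →
    e = false ∧ i = false ∧ j = false := by
  decide

/-- The second model: `u` or `T` gives a nontrivial condition. -/
theorem table3 : ∀ c ∈ clsList, ∀ τ : Bool,
    let U := c.1; let V := c.2.1; let x := c.2.2
    let y := x ^^ (bn U && bn V)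
    let T := if τ then (2 * U + 24 - V) % 24 else (V + 24 - 2 * U) % 24
    let sT := ((τ && bn U) ^^ y) ^^ (bn T && bn U)
    (bh U = false ∧ y = true) ∨ (bh T = false ∧ (bt T ^^ sT) = true) := by
  decide

/-- The first model: exactly one of `P`, `Q` gives a (nontrivial) condition. -/
theorem table4 : ∀ c ∈ clsList,
    let U := c.1; let V := c.2.1; let x := c.2.2
    let y := x ^^ (bn U && bn V)
    let P := (V + 4 * U) % 24; let Q := (2 * U + 3 * V) % 24
    let sP := y ^^ (bn P && bn U)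
    let sQ := (bh U ^^ y) ^^ (bn Q && bn U)
    ((bt P ^^ bh P) = false ∧ (bt Q ^^ bh Q) = true ∧ (bn P = true ∨ bt P = true ∨ sP = true)) ∨
    ((bt Q ^^ bh Q) = false ∧ (bt P ^^ bh P) = true ∧ (bn Q = true ∨ bt Q = true ∨ sQ = true)) := by
  decide

end Pool.Agent.ShF
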